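import Pool.Agent.K4H39.HU.Defs

/-!
# The Cayley transform `SL(2, ℤ) → SU(1, 1)`
-/

set_option autoImplicit false

open Matrix
open scoped MatrixGroups

namespace Pool.Agent.K4H39.HU

/-- The matrix `C` of the Cayley transform, with rows `(1, -i)` and `(1, i)`. -/
noncomputable def cayley : Matrix (Ix 1) (Fin 2) ℂ :=
  Matrix.of (Sum.elim (fun _ => ![1, -Complex.I]) (fun _ => ![1, Complex.I]))

/-- The inverse of the matrix `C`. -/
noncomputable def cayleyInv : Matrix (Fin 2) (Ix 1) ℂ :=
  Matrix.of ![Sum.elim (fun _ => 1 / 2) (fun _ => 1 / 2),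
    Sum.elim (fun _ => Complex.I / 2) (fun _ => -(Complex.I / 2))]

lemma cayley_mul_inv : cayley * cayleyInv = 1 := by
  ext i j
  rw [Matrix.mul_apply, Fin.sum_univ_two]
  rcases i with i | i <;> rcases j with j | j
  · have : i = j := Subsingleton.elim _ _
    subst this
    simp [cayley, cayleyInv]
    linear_combination (-1 / 2) * Complex.I_mul_I
  · simp [cayley, cayleyInv]
    linear_combination (1 / 2) * Complex.I_mul_I
  · simp [cayley, cayleyInv]
    linear_combination (1 / 2) * Complex.I_mul_I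
  · simp [cayley, cayleyInv]
    linear_combination (-1 / 2) * Complex.I_mul_I

lemma inv_mul_cayley : cayleyInv * cayley = 1 := by
  ext i j
  rw [Matrix.mul_apply, Fintype.sum_sum_type]
  fin_cases i <;> fin_cases j
  · simp [cayley, cayleyInv]
    norm_num
  · simp [cayley, cayleyInv]
  · simp [cayley, cayleyInv]
  · simp [cayley, cayleyInv]
    linear_combination (-1) * Complex.I_mul_I

/-- The matrix `C g C⁻¹`. -/
noncomputable def cayleyConj (g : Matrix (Fin 2) (Fin 2) ℤ) : Matrix (Ix 1) (Ix 1) ℂ :=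
  cayley * g.map (fun a => (a : ℂ)) * cayleyInv

lemma cayleyConj_mul (g h : Matrix (Fin 2) (Fin 2) ℤ) :
    cayleyConj (g * h) = cayleyConj g * cayleyConj h := by
  have h1 : (g * h).map (fun a => (a : ℂ)) = g.map (fun a => (a : ℂ)) * h.map (fun a => (a : ℂ)) :=
    Matrix.map_mul (f := Int.castRingHom ℂ)
  rw [cayleyConj, cayleyConj, cayleyConj, h1]
  calc _ = cayley * g.map (fun a => (a : ℂ)) * (1 : Matrix (Fin 2) (Fin 2) ℂ) *
        (h.map (fun a => (a : ℂ)) * cayleyInv) := by
        simp only [Matrix.mul_assoc, Matrix.one_mul]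
    _ = _ := by rw [← inv_mul_cayley]; simp only [Matrix.mul_assoc]

lemma cayleyConj_det (g : Matrix (Fin 2) (Fin 2) ℤ) : (cayleyConj g).det = (g.det : ℂ) := by
  rw [cayleyConj, det_conj_of_mul_eq_one cayley_mul_inv inv_mul_cayley, det_fin_two, det_fin_two]
  simp

lemma cayleyConj_injective : Function.Injective cayleyConj := by
  intro g h hgh
  have h1 : ∀ g : Matrix (Fin 2) (Fin 2) ℤ,
      cayleyInv * cayleyConj g * cayley = g.map (fun a => (a : ℂ)) := by
    intro g
    rw [cayleyConj]
    calc _ = (cayleyInv * cayley) * g.map (fun a => (a : ℂ)) * (cayleyInv * cayley) := by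
          simp only [Matrix.mul_assoc]
      _ = _ := by rw [inv_mul_cayley, Matrix.one_mul, Matrix.mul_one]
  have h2 : g.map (fun a => (a : ℂ)) = h.map (fun a => (a : ℂ)) := by rw [← h1, ← h1, hgh]
  ext i j
  have := congrFun (congrFun h2 i) j
  simpa using this

lemma preserves_cayleyConj {g : Matrix (Fin 2) (Fin 2) ℤ} (hg : g.det = 1) :
    Preserves (cayleyConj g) := by
  have hC : cayleyᴴ * lorentz 1 * cayley = !![0, -(2 * Complex.I); 2 * Complex.I, 0] := by
    ext i j
    rw [Matrix.mul_assoc, Matrix.mul_apply, Fintype.sum_sum_type]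
    simp only [lorentz, Matrix.diagonal_mul, Matrix.conjTranspose_apply]
    fin_cases i <;> fin_cases j
    · simp [cayley]
    · simp [cayley]
      ring
    · simp [cayley]
      ring
    · simp [cayley]
  have hG : (g.map (fun a => (a : ℂ)))ᴴ * !![0, -(2 * Complex.I); 2 * Complex.I, 0] *
      g.map (fun a => (a : ℂ)) = !![0, -(2 * Complex.I); 2 * Complex.I, 0] := by
    have hd : ((g 0 0 : ℂ) * g 1 1 - g 0 1 * g 1 0) = 1 := by
      rw [det_fin_two] at hg
      exact_mod_cast hg
    ext i j
    fin_cases i <;> fin_cases j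
    · simp [Matrix.mul_apply, Fin.sum_univ_two]
      ring
    · simp [Matrix.mul_apply, Fin.sum_univ_two]
      linear_combination (-(2 * Complex.I)) * hd
    · simp [Matrix.mul_apply, Fin.sum_univ_two]
      linear_combination (2 * Complex.I) * hd
    · simp [Matrix.mul_apply, Fin.sum_univ_two]
      ring
  rw [Preserves, cayleyConj, Matrix.conjTranspose_mul, Matrix.conjTranspose_mul]
  calc _ = cayleyInvᴴ * ((g.map (fun a => (a : ℂ)))ᴴ * (cayleyᴴ * lorentz 1 * cayley) *
        g.map (fun a => (a : ℂ))) * cayleyInv := by simp only [Matrix.mul_assoc]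
    _ = cayleyInvᴴ * (cayleyᴴ * lorentz 1 * cayley) * cayleyInv := by rw [hC, hG]
    _ = (cayley * cayleyInv)ᴴ * lorentz 1 * (cayley * cayleyInv) := by
        rw [Matrix.conjTranspose_mul]; simp only [Matrix.mul_assoc]
    _ = lorentz 1 := by
        rw [cayley_mul_inv, Matrix.conjTranspose_one, Matrix.one_mul, Matrix.mul_one]

/-- The element `C g C⁻¹` of `SU(1, 1)`. -/
noncomputable def kappaFun (g : SL(2, ℤ)) : SU 1 :=
  ⟨⟨cayleyConj g.1, by rw [cayleyConj_det, g.2]; simp⟩, preserves_cayleyConj g.2⟩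

lemma kappaFun_one : kappaFun 1 = 1 := by
  apply Subtype.ext
  apply Subtype.ext
  change cayleyConj 1 = 1
  rw [cayleyConj, Matrix.map_one _ (by simp) (by simp), Matrix.mul_one, cayley_mul_inv]

lemma kappaFun_mul (g h : SL(2, ℤ)) : kappaFun (g * h) = kappaFun g * kappaFun h := by
  apply Subtype.ext
  apply Subtype.ext
  exact cayleyConj_mul g.1 h.1

/-- The homomorphism `g ↦ C g C⁻¹` of `SL(2, ℤ)` to `SU(1, 1)`. -/
noncomputable def kappa : SL(2, ℤ) →* SU 1 where
  toFun := kappaFun
  map_one' := kappaFun_one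
  map_mul' := kappaFun_mul

lemma kappa_injective : Function.Injective kappa := by
  intro g h hgh
  apply Subtype.ext
  apply cayleyConj_injective
  exact congrArg (fun x : SU 1 => x.1.1) hgh

end Pool.Agent.K4H39.HU
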