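import Mathlib

/-!
# Lattices in `SU(n, 1)`: definitions
-/

set_option autoImplicit false

open Matrix MeasureTheory

namespace Pool.Agent.K4H39.HU

/-- The index set of the coordinates of `ℂ ^ (n + 1)`. -/
abbrev Ix (n : ℕ) : Type := Fin n ⊕ Unit

/-- The matrix `diag (1, …, 1, -1)` of the Hermitian form of signature `(n, 1)`. -/
def lorentz (n : ℕ) : Matrix (Ix n) (Ix n) ℂ :=
  Matrix.diagonal (Sum.elim (fun _ => 1) (fun _ => -1))

/-- The matrix `g` preserves the Hermitian form of signature `(n, 1)`. -/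
def Preserves {n : ℕ} (g : Matrix (Ix n) (Ix n) ℂ) : Prop := gᴴ * lorentz n * g = lorentz n

lemma Preserves.one (n : ℕ) : Preserves (1 : Matrix (Ix n) (Ix n) ℂ) := by
  rw [Preserves, Matrix.conjTranspose_one, Matrix.one_mul, Matrix.mul_one]

lemma Preserves.mul {n : ℕ} {a b : Matrix (Ix n) (Ix n) ℂ} (ha : Preserves a) (hb : Preserves b) :
    Preserves (a * b) := by
  rw [Preserves] at *
  calc (a * b)ᴴ * lorentz n * (a * b) = bᴴ * (aᴴ * lorentz n * a) * b := by
        rw [Matrix.conjTranspose_mul]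
        simp only [Matrix.mul_assoc]
    _ = lorentz n := by rw [ha, hb]

lemma Preserves.inv {n : ℕ} {a b : Matrix (Ix n) (Ix n) ℂ} (ha : Preserves a) (h : a * b = 1) :
    Preserves b := by
  rw [Preserves] at *
  have h2 : bᴴ * aᴴ = 1 := by rw [← Matrix.conjTranspose_mul, h, Matrix.conjTranspose_one]
  calc bᴴ * lorentz n * b = bᴴ * (aᴴ * lorentz n * a) * b := by rw [ha]
    _ = (bᴴ * aᴴ) * lorentz n * (a * b) := by simp only [Matrix.mul_assoc]
    _ = lorentz n := by rw [h, h2, Matrix.one_mul, Matrix.mul_one]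

/-- The group `SU(n, 1)` of complex matrices of determinant `1` which preserve the Hermitian form of
signature `(n, 1)`. -/
def SU (n : ℕ) : Subgroup (SpecialLinearGroup (Ix n) ℂ) where
  carrier := {g | Preserves (g : Matrix (Ix n) (Ix n) ℂ)}
  one_mem' := Preserves.one n
  mul_mem' := fun ha hb => Preserves.mul ha hb
  inv_mem' := by
    intro a ha
    refine Preserves.inv ha ?_
    have := congrArg (fun g : SpecialLinearGroup (Ix n) ℂ => (g : Matrix (Ix n) (Ix n) ℂ))
      (mul_inv_cancel a)
    exact this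

/-- The quotient `G / Γ` has a finite nonzero measure which is invariant under `G`. -/
def HasFiniteCovolume {G : Type*} [Group G] [TopologicalSpace G] (Γ : Subgroup G) : Prop :=
  ∃ (_ : MeasurableSpace (G ⧸ Γ)) (_ : BorelSpace (G ⧸ Γ)) (μ : Measure (G ⧸ Γ)),
    μ ≠ 0 ∧ μ Set.univ < ⊤ ∧ ∀ g : G, μ.map (fun x => g • x) = μ

/-- The subgroup `Γ` of the topological group `G` is a lattice: it is discrete, and `G / Γ` has
finite Haar measure. -/
structure IsLattice {G : Type*} [Group G] [TopologicalSpace G] (Γ : Subgroup G) : Prop where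
  discrete : DiscreteTopology Γ
  covolume : HasFiniteCovolume Γ

end Pool.Agent.K4H39.HU
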