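import Pool.Agent.K4H39.HU.Defs

/-!
# Recurrence for lattices
-/

set_option autoImplicit false

open MeasureTheory

namespace Pool.Agent.K4H39.HU

/-- Poincaré recurrence on `G / Γ`. -/
theorem recurrence {G : Type*} [Group G] [TopologicalSpace G] [IsTopologicalGroup G]
    [TopologicalSpace.SeparableSpace G] {Γ : Subgroup G} (hΓ : HasFiniteCovolume Γ) (g : G)
    {U : Set G} (hU : IsOpen U) (hU1 : (1 : G) ∈ U) :
    ∃ k ≥ 1, ∃ u ∈ U, ∃ u' ∈ U, u⁻¹ * (g ^ k * u') ∈ Γ := by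
  obtain ⟨mX, hX, μ, hμ0, hμ, hinv⟩ := hΓ
  have : IsFiniteMeasure μ := ⟨hμ⟩
  have hcont : ∀ g : G, Continuous (fun x : G ⧸ Γ => g • x) := fun g => continuous_const_smul g
  have hmeas : ∀ g : G, Measurable (fun x : G ⧸ Γ => g • x) := fun g => (hcont g).measurable
  have hmp : ∀ g : G, MeasurePreserving (fun x : G ⧸ Γ => g • x) μ μ := fun g =>
    ⟨hmeas g, hinv g⟩
  set π : G → G ⧸ Γ := fun x => (x : G ⧸ Γ) with hπ
  have hB : IsOpen (π '' U) := QuotientGroup.isOpenMap_coe U hU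
  have hBm : MeasurableSet (π '' U) := hB.measurableSet
  have hB0 : μ (π '' U) ≠ 0 := by
    intro h0
    apply hμ0
    obtain ⟨D, hDc, hDd⟩ := TopologicalSpace.exists_countable_dense G
    rw [← Measure.measure_univ_eq_zero]
    have hcov : (Set.univ : Set (G ⧸ Γ)) ⊆ ⋃ d ∈ D, (fun x : G ⧸ Γ => d⁻¹ • x) ⁻¹' (π '' U) := by
      intro x _
      obtain ⟨y, rfl⟩ := QuotientGroup.mk_surjective x
      have hV : IsOpen {z : G | z⁻¹ * y ∈ U} :=
        hU.preimage (continuous_inv.mul continuous_const)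
      obtain ⟨d, hdD, hd⟩ := hDd.exists_mem_open hV ⟨y, by simpa using hU1⟩
      refine Set.mem_iUnion₂.2 ⟨d, hdD, ?_⟩
      exact ⟨d⁻¹ * y, hd, rfl⟩
    refine measure_mono_null hcov ?_
    rw [measure_biUnion_null_iff hDc]
    intro d _
    rw [(hmp d⁻¹).measure_preimage hBm.nullMeasurableSet, h0]
  obtain ⟨x, ⟨u', hu', rfl⟩, m, hm, ⟨u, hu, hum⟩⟩ :=
    (hmp g).exists_mem_iterate_mem hBm.nullMeasurableSet hB0
  refine ⟨m, Nat.one_le_iff_ne_zero.2 hm, u, hu, u', hu', ?_⟩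
  rw [smul_iterate] at hum
  have h1 : ((u : G) : G ⧸ Γ) = ((g ^ m * u' : G) : G ⧸ Γ) := hum
  exact QuotientGroup.eq.1 h1

end Pool.Agent.K4H39.HU
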