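import Pool.Agent.K4H39.HU.Hyp
import Pool.Agent.K4H39.HU.Rec

/-!
# Elements of lattices with prescribed dynamics on the boundary
-/

set_option autoImplicit false

open Matrix

namespace Pool.Agent.K4H39.HU

variable {n : ℕ}

/-- The matrix of an element of `SU(n, 1)`. -/
def mat (g : SU n) : Matrix (Ix n) (Ix n) ℂ := (g : SpecialLinearGroup (Ix n) ℂ).1

lemma mat_one : mat (1 : SU n) = 1 := rfl
lemma mat_mul (g h : SU n) : mat (g * h) = mat g * mat h := rfl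

lemma mat_mul_inv (g : SU n) : mat g * mat g⁻¹ = 1 := by
  rw [← mat_mul, mul_inv_cancel, mat_one]

lemma mat_inv_mul (g : SU n) : mat g⁻¹ * mat g = 1 := by
  rw [← mat_mul, inv_mul_cancel, mat_one]

lemma form_mat (g : SU n) (x y : Ix n → ℂ) : form (mat g *ᵥ x) (mat g *ᵥ y) = form x y :=
  form_smul_smul g.2 x y

lemma form_mat_left (g : SU n) (x y : Ix n → ℂ) : form (mat g *ᵥ x) y = form x (mat g⁻¹ *ᵥ y) := by
  rw [← form_mat g x (mat g⁻¹ *ᵥ y), mulVec_mulVec, mat_mul_inv, one_mulVec]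

/-- The sum of the absolute values of the entries of `M - 1`. -/
noncomputable def eta (M : Matrix (Ix n) (Ix n) ℂ) : ℝ := ∑ i, ∑ j, ‖(M - 1) i j‖

lemma eta_nonneg (M : Matrix (Ix n) (Ix n) ℂ) : 0 ≤ eta M :=
  Finset.sum_nonneg fun _ _ => Finset.sum_nonneg fun _ _ => norm_nonneg _

lemma norm_mulVec_sub_le (M : Matrix (Ix n) (Ix n) ℂ) (x : Ix n → ℂ) :
    ‖M *ᵥ x - x‖ ≤ eta M * ‖x‖ := by
  have h1 : M *ᵥ x - x = (M - 1) *ᵥ x := by rw [sub_mulVec, one_mulVec]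
  rw [h1, pi_norm_le_iff_of_nonneg (mul_nonneg (eta_nonneg M) (norm_nonneg x))]
  intro i
  rw [Matrix.mulVec, dotProduct]
  calc ‖∑ j, (M - 1) i j * x j‖ ≤ ∑ j, ‖(M - 1) i j‖ * ‖x‖ := by
        refine norm_sum_le_of_le _ fun j _ => ?_
        rw [norm_mul]
        exact mul_le_mul_of_nonneg_left (norm_le_pi_norm x j) (norm_nonneg _)
    _ = (∑ j, ‖(M - 1) i j‖) * ‖x‖ := by rw [Finset.sum_mul]
    _ ≤ eta M * ‖x‖ := by
        refine mul_le_mul_of_nonneg_right ?_ (norm_nonneg _)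
        exact Finset.single_le_sum (f := fun i => ∑ j, ‖(M - 1) i j‖)
          (fun i _ => Finset.sum_nonneg fun _ _ => norm_nonneg _) (Finset.mem_univ i)

lemma norm_mulVec_le (M : Matrix (Ix n) (Ix n) ℂ) (h : eta M ≤ 1) (x : Ix n → ℂ) :
    ‖M *ᵥ x‖ ≤ 2 * ‖x‖ := by
  have h1 := norm_mulVec_sub_le M x
  have h2 : ‖M *ᵥ x‖ ≤ ‖M *ᵥ x - x‖ + ‖x‖ := by
    have := norm_add_le (M *ᵥ x - x) x
    rwa [sub_add_cancel] at this
  have h3 : eta M * ‖x‖ ≤ 1 * ‖x‖ := mul_le_mul_of_nonneg_right h (norm_nonneg _)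
  linarith

lemma continuous_mat : Continuous (mat : SU n → Matrix (Ix n) (Ix n) ℂ) :=
  continuous_subtype_val.comp continuous_subtype_val

lemma continuous_eta : Continuous fun g : SU n => eta (mat g) := by
  have h : ∀ i j, Continuous fun g : SU n => (mat g) i j := fun i j =>
    continuous_mat.matrix_elem i j
  unfold eta
  refine continuous_finsetSum _ fun i _ => continuous_finsetSum _ fun j _ => ?_
  simp only [Matrix.sub_apply]
  exact ((h i j).sub continuous_const).norm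

lemma eta_one : eta (1 : Matrix (Ix n) (Ix n) ℂ) = 0 := by
  simp [eta]

/-- The dynamics of `u g u'` if `g` is hyperbolic with a large eigenvalue and `u`, `u'` are close
to `1`. -/
lemma attract {v w : Ix n → ℂ} {ε δ S : ℝ} (hε : 0 < ε) (hδ1 : δ ≤ 1)
    (hδv : (n + 1) * (δ * ‖v‖) ≤ ε / 8) (hδw : (n + 1) * (δ * ‖w‖) ≤ ε / 8) (hS : 0 < S)
    (hS2 : 32 * (n + 1) ^ 2 * ‖v‖ * ‖w‖ ≤ ε ^ 2 * S ^ 2) {g u u' : SU n}
    (hgv : mat g *ᵥ v = (S : ℂ) • v) (hgw : mat g *ᵥ w = ((S⁻¹ : ℝ) : ℂ) • w)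
    (hu : eta (mat u) ≤ δ) (hu' : eta (mat u') ≤ δ)
    (hu'i : eta (mat u'⁻¹) ≤ δ) {x : Ix n → ℂ} (hx0 : x ≠ 0)
    (hx : ε * ‖x‖ ≤ ‖form x w‖) :
    ‖form (mat (u⁻¹ * (g * u')) *ᵥ x) v‖ < ε * ‖mat (u⁻¹ * (g * u')) *ᵥ x‖ := by
  have hC : (0 : ℝ) ≤ n + 1 := by positivity
  set x' := mat u' *ᵥ x with hx'
  set y' := mat g *ᵥ x' with hy'
  set y := mat (u⁻¹ * (g * u')) *ᵥ x with hy
  have hyy' : y = mat u⁻¹ *ᵥ y' := by
    rw [hy, hy', hx', mulVec_mulVec, mulVec_mulVec, mat_mul, mat_mul, Matrix.mul_assoc]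
  have hy'y : y' = mat u *ᵥ y := by
    rw [hyy', mulVec_mulVec, mat_mul_inv, one_mulVec]
  -- `x'`
  have hx'n : ‖x'‖ ≤ 2 * ‖x‖ := norm_mulVec_le _ (hu'.trans hδ1) x
  have h1 : ε / 4 * ‖x'‖ ≤ ‖form x' w‖ := by
    have e1 : form x' w = form x w + form x (mat u'⁻¹ *ᵥ w - w) := by
      rw [hx', form_mat_left, form_sub_right]; ring
    have e2 : ‖form x (mat u'⁻¹ *ᵥ w - w)‖ ≤ ε / 8 * ‖x‖ := by
      calc _ ≤ (n + 1) * ‖x‖ * ‖mat u'⁻¹ *ᵥ w - w‖ := norm_form_le _ _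
        _ ≤ (n + 1) * ‖x‖ * (δ * ‖w‖) := by
          refine mul_le_mul_of_nonneg_left ?_ (by positivity)
          exact (norm_mulVec_sub_le _ _).trans (mul_le_mul_of_nonneg_right hu'i (norm_nonneg _))
        _ = ((n + 1) * (δ * ‖w‖)) * ‖x‖ := by ring
        _ ≤ ε / 8 * ‖x‖ := mul_le_mul_of_nonneg_right hδw (norm_nonneg _)
    have e3 : ‖form x w‖ ≤ ‖form x' w‖ + ‖form x (mat u'⁻¹ *ᵥ w - w)‖ := by
      rw [e1]
      have := norm_sub_le (form x w + form x (mat u'⁻¹ *ᵥ w - w))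
        (form x (mat u'⁻¹ *ᵥ w - w))
      rwa [add_sub_cancel_right] at this
    have e4 : 0 ≤ ‖x‖ := norm_nonneg x
    nlinarith
  -- `y'`
  have hSC : (S : ℂ) ≠ 0 := by exact_mod_cast hS.ne'
  have h2 : form y' v = (S : ℂ)⁻¹ * form x' v := by
    have e1 : v = (S : ℂ)⁻¹ • (mat g *ᵥ v) := by
      rw [hgv, smul_smul, inv_mul_cancel₀ hSC, one_smul]
    rw [hy']
    conv_lhs => rw [e1]
    rw [form_smul_right, form_mat]
  have h3 : form y' w = (S : ℂ) * form x' w := by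
    have e1 : w = (S : ℂ) • (mat g *ᵥ w) := by
      rw [hgw, smul_smul]
      push_cast
      rw [mul_inv_cancel₀ hSC, one_smul]
    rw [hy']
    conv_lhs => rw [e1]
    rw [form_smul_right, form_mat]
  have h4 : ‖form y' v‖ ≤ ε / 8 * ‖y'‖ := by
    have e1 : S * (ε / 4 * ‖x'‖) ≤ (n + 1) * ‖y'‖ * ‖w‖ := by
      refine le_trans ?_ (norm_form_le y' w)
      rw [h3, norm_mul, Complex.norm_real, Real.norm_of_nonneg hS.le]
      exact mul_le_mul_of_nonneg_left h1 hS.le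
    have e2 : ‖form y' v‖ ≤ S⁻¹ * ((n + 1) * ‖x'‖ * ‖v‖) := by
      rw [h2, norm_mul, norm_inv, Complex.norm_real, Real.norm_of_nonneg hS.le]
      exact mul_le_mul_of_nonneg_left (norm_form_le _ _) (by positivity)
    refine e2.trans ?_
    rw [inv_mul_le_iff₀ hS]
    -- multiply by `S ε / 4`
    have e3 : (S * (ε / 4)) * ((n + 1) * ‖x'‖ * ‖v‖) ≤ (S * (ε / 4)) * (S * (ε / 8 * ‖y'‖)) := by
      calc (S * (ε / 4)) * ((n + 1) * ‖x'‖ * ‖v‖) = (S * (ε / 4 * ‖x'‖)) * ((n + 1) * ‖v‖) := by ring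
        _ ≤ ((n + 1) * ‖y'‖ * ‖w‖) * ((n + 1) * ‖v‖) :=
            mul_le_mul_of_nonneg_right e1 (by positivity)
        _ = (32 * (n + 1) ^ 2 * ‖v‖ * ‖w‖) * (‖y'‖ / 32) := by ring
        _ ≤ (ε ^ 2 * S ^ 2) * (‖y'‖ / 32) := mul_le_mul_of_nonneg_right hS2 (by positivity)
        _ = (S * (ε / 4)) * (S * (ε / 8 * ‖y'‖)) := by ring
    exact le_of_mul_le_mul_left e3 (by positivity)
  -- `y`
  have hy0 : y ≠ 0 := by
    intro h0
    apply hx0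
    have : mat (u⁻¹ * (g * u'))⁻¹ *ᵥ y = x := by
      rw [hy, mulVec_mulVec, mat_inv_mul, one_mulVec]
    rw [← this, h0, mulVec_zero]
  have hyn : 0 < ‖y‖ := norm_pos_iff.2 hy0
  have h5 : ‖y'‖ ≤ 2 * ‖y‖ := by
    rw [hy'y]
    exact norm_mulVec_le _ (hu.trans hδ1) y
  have h6 : ‖form y v‖ ≤ ε / 4 * ‖y'‖ := by
    have e1 : form y v = form y' v + form y' (mat u *ᵥ v - v) := by
      rw [hyy', form_mat_left, inv_inv, form_sub_right]; ring
    have e2 : ‖form y' (mat u *ᵥ v - v)‖ ≤ ε / 8 * ‖y'‖ := by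
      calc _ ≤ (n + 1) * ‖y'‖ * ‖mat u *ᵥ v - v‖ := norm_form_le _ _
        _ ≤ (n + 1) * ‖y'‖ * (δ * ‖v‖) := by
          refine mul_le_mul_of_nonneg_left ?_ (by positivity)
          exact (norm_mulVec_sub_le _ _).trans (mul_le_mul_of_nonneg_right hu (norm_nonneg _))
        _ = ((n + 1) * (δ * ‖v‖)) * ‖y'‖ := by ring
        _ ≤ ε / 8 * ‖y'‖ := mul_le_mul_of_nonneg_right hδv (norm_nonneg _)
    rw [e1]
    calc _ ≤ ‖form y' v‖ + ‖form y' (mat u *ᵥ v - v)‖ := norm_add_le _ _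
      _ ≤ ε / 8 * ‖y'‖ + ε / 8 * ‖y'‖ := add_le_add h4 e2
      _ = ε / 4 * ‖y'‖ := by ring
  nlinarith

end Pool.Agent.K4H39.HU
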