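import Pool.Agent.K4H39.HU.Dyn

/-!
# Elements of lattices with prescribed dynamics on the boundary
-/

set_option autoImplicit false

open Matrix

namespace Pool.Agent.K4H39.HU

variable {n : ℕ}

instance : SecondCountableTopology (SU n) := by
  have h1 : SecondCountableTopology (Matrix (Ix n) (Ix n) ℂ) :=
    inferInstanceAs (SecondCountableTopology (Ix n → Ix n → ℂ))
  have h2 : Topology.IsInducing (mat : SU n → Matrix (Ix n) (Ix n) ℂ) :=
    Topology.IsInducing.subtypeVal.comp Topology.IsInducing.subtypeVal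
  exact h2.secondCountableTopology

lemma pow_mulVec {g : SU n} {v : Ix n → ℂ} {c : ℂ} (h : mat g *ᵥ v = c • v) (k : ℕ) :
    mat (g ^ k) *ᵥ v = c ^ k • v := by
  induction k with
  | zero => rw [pow_zero, pow_zero, mat_one, one_mulVec, one_smul]
  | succ k ih => rw [pow_succ, mat_mul, ← mulVec_mulVec, h, mulVec_smul, ih, smul_smul, pow_succ',
      mul_comm]

theorem exists_elt {Γ : Subgroup (SU n)} (hΓ : HasFiniteCovolume Γ) {v w : Ix n → ℂ}
    (hv : form v v = 0) (hw : form w w = 0) (hvw : form v w ≠ 0) {ε : ℝ} (hε : 0 < ε) :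
    ∃ γ ∈ Γ, ∀ x : Ix n → ℂ, x ≠ 0 → ε * ‖x‖ ≤ ‖form x w‖ →
      ‖form (mat γ *ᵥ x) v‖ < ε * ‖mat γ *ᵥ x‖ := by
  set K : ℝ := 32 * (n + 1) ^ 2 * ‖v‖ * ‖w‖ with hK
  have hK0 : 0 ≤ K := by positivity
  set s : ℝ := 1 + K / ε ^ 2 with hs
  have hs1 : 1 ≤ s := by
    have : 0 ≤ K / ε ^ 2 := by positivity
    linarith
  obtain ⟨g, hgv, hgw⟩ := exists_hyp hv hw hvw s (by positivity)
  have hgv' : mat g *ᵥ v = (s : ℂ) • v := hgv
  have hgw' : mat g *ᵥ w = ((s⁻¹ : ℝ) : ℂ) • w := hgw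
  set D : ℝ := 8 * (n + 1) * (‖v‖ + ‖w‖ + 1) with hD
  have hD0 : 0 < D := by positivity
  set δ : ℝ := min 1 (ε / D) with hδ
  have hδ0 : 0 < δ := lt_min one_pos (by positivity)
  have hδ1 : δ ≤ 1 := min_le_left _ _
  have hδD : δ ≤ ε / D := min_le_right _ _
  have hδ' : δ * D ≤ ε := by rwa [le_div_iff₀ hD0] at hδD
  have hδv : (n + 1) * (δ * ‖v‖) ≤ ε / 8 := by
    have : (n + 1) * (δ * ‖v‖) * 8 ≤ δ * D := by
      rw [hD]
      have h1 : 0 ≤ δ * (n + 1) * (‖w‖ + 1) := by positivity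
      nlinarith
    linarith
  have hδw : (n + 1) * (δ * ‖w‖) ≤ ε / 8 := by
    have : (n + 1) * (δ * ‖w‖) * 8 ≤ δ * D := by
      rw [hD]
      have h1 : 0 ≤ δ * (n + 1) * (‖v‖ + 1) := by positivity
      nlinarith
    linarith
  set U : Set (SU n) := {u | eta (mat u) < δ} ∩ {u | eta (mat u⁻¹) < δ} with hU
  have hUo : IsOpen U := (isOpen_lt continuous_eta continuous_const).inter
    (isOpen_lt (continuous_eta.comp continuous_inv) continuous_const)
  have hU1 : (1 : SU n) ∈ U := by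
    refine ⟨?_, ?_⟩
    · change eta (mat 1) < δ
      rw [mat_one, eta_one]; exact hδ0
    · change eta (mat 1⁻¹) < δ
      rw [inv_one, mat_one, eta_one]; exact hδ0
  obtain ⟨k, hk, u, hu, u', hu', hγ⟩ := recurrence hΓ g hUo hU1
  refine ⟨_, hγ, fun x hx0 hx => ?_⟩
  have hsk : s ≤ s ^ k := le_self_pow₀ hs1 (by omega)
  refine attract (S := s ^ k) hε hδ1 hδv hδw (by positivity) ?_ ?_ ?_ hu.1.le hu'.1.le hu'.2.le
    hx0 hx
  · have h1 : s ≤ (s ^ k) ^ 2 := by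
      calc s ≤ s ^ k := hsk
        _ ≤ (s ^ k) ^ 2 := by
          have : 1 ≤ s ^ k := hs1.trans hsk
          nlinarith
    have h2 : K ≤ ε ^ 2 * s := by
      rw [hs, mul_add, mul_div_cancel₀ _ (by positivity : ε ^ 2 ≠ 0)]
      have : 0 ≤ ε ^ 2 * 1 := by positivity
      linarith
    calc K ≤ ε ^ 2 * s := h2
      _ ≤ ε ^ 2 * (s ^ k) ^ 2 := mul_le_mul_of_nonneg_left h1 (by positivity)
  · rw [pow_mulVec hgv']
    push_cast
    rfl
  · rw [pow_mulVec hgw']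
    push_cast
    rw [inv_pow]

end Pool.Agent.K4H39.HU
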