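import Pool.Agent.K4H39.HU.Defs

/-!
# The Hermitian form of signature `(n, 1)`
-/

set_option autoImplicit false

open Matrix

namespace Pool.Agent.K4H39.HU

variable {n : ℕ}

/-- The Hermitian form. -/
noncomputable def form (x y : Ix n → ℂ) : ℂ := star x ⬝ᵥ (lorentz n *ᵥ y)

lemma form_eq (x y : Ix n → ℂ) :
    form x y = (∑ i : Fin n, star (x (Sum.inl i)) * y (Sum.inl i)) -
      star (x (Sum.inr ())) * y (Sum.inr ()) := by
  rw [form, lorentz]
  simp [dotProduct, Matrix.mulVec_diagonal, Fintype.sum_sum_type, sub_eq_add_neg]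

lemma form_add_left (x y z : Ix n → ℂ) : form (x + y) z = form x z + form y z := by
  rw [form, form, form, star_add, add_dotProduct]

lemma form_add_right (x y z : Ix n → ℂ) : form x (y + z) = form x y + form x z := by
  rw [form, form, form, mulVec_add, dotProduct_add]

lemma form_smul_left (c : ℂ) (x y : Ix n → ℂ) : form (c • x) y = star c * form x y := by
  rw [form, form, star_smul, smul_dotProduct, smul_eq_mul]

lemma form_smul_right (c : ℂ) (x y : Ix n → ℂ) : form x (c • y) = c * form x y := by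
  rw [form, form, mulVec_smul, dotProduct_smul, smul_eq_mul]

lemma form_sub_left (x y z : Ix n → ℂ) : form (x - y) z = form x z - form y z := by
  rw [form, form, form, star_sub, sub_dotProduct]

lemma form_sub_right (x y z : Ix n → ℂ) : form x (y - z) = form x y - form x z := by
  rw [form, form, form, mulVec_sub, dotProduct_sub]

lemma form_star (x y : Ix n → ℂ) : star (form x y) = form y x := by
  rw [form_eq, form_eq]
  simp only [star_sub, star_sum, star_mul', star_star]
  congr 1
  · exact Finset.sum_congr rfl fun i _ => mul_comm _ _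
  · exact mul_comm _ _

lemma form_zero_right (x : Ix n → ℂ) : form x 0 = 0 := by
  rw [form, mulVec_zero, dotProduct_zero]

/-- The group preserves the form. -/
lemma form_smul_smul {g : Matrix (Ix n) (Ix n) ℂ} (hg : gᴴ * lorentz n * g = lorentz n)
    (x y : Ix n → ℂ) : form (g *ᵥ x) (g *ᵥ y) = form x y := by
  rw [form, form, star_mulVec, ← dotProduct_mulVec, mulVec_mulVec, mulVec_mulVec, hg]

/-- A vector with last coordinate zero and `form z z = 0` is zero. -/
lemma eq_zero_of_last {z : Ix n → ℂ} (h : form z z = 0) (h0 : z (Sum.inr ()) = 0) : z = 0 := by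
  rw [form_eq, h0, mul_zero, sub_zero] at h
  have h1 : ∑ i : Fin n, ‖z (Sum.inl i)‖ ^ 2 = 0 := by
    have h2 : ((∑ i : Fin n, ‖z (Sum.inl i)‖ ^ 2 : ℝ) : ℂ) = 0 := by
      rw [← h]
      push_cast
      refine Finset.sum_congr rfl fun i _ => ?_
      rw [← Complex.conj_mul']
      rfl
    exact_mod_cast h2
  rw [Finset.sum_eq_zero_iff_of_nonneg (fun i _ => by positivity)] at h1
  funext j
  rcases j with i | ⟨⟩
  · have h3 := h1 i (Finset.mem_univ _)
    simpa using h3
  · exact h0

/-- Isotropic vectors which are orthogonal are proportional. -/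
lemma prop_of_form_zero {x y : Ix n → ℂ} (hx : form x x = 0) (hy : form y y = 0) (hy0 : y ≠ 0)
    (h : form x y = 0) : ∃ c : ℂ, x = c • y := by
  have hl : y (Sum.inr ()) ≠ 0 := fun h0 => hy0 (eq_zero_of_last hy h0)
  refine ⟨x (Sum.inr ()) / y (Sum.inr ()), ?_⟩
  set c := x (Sum.inr ()) / y (Sum.inr ()) with hc
  have h1 : x - c • y = 0 := by
    apply eq_zero_of_last
    · have h2 : form y x = 0 := by rw [← form_star, h, star_zero]
      rw [form_sub_left, form_sub_right, form_sub_right, form_smul_right, form_smul_left,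
        form_smul_left, form_smul_right, hx, hy, h, h2]
      simp
    · simp only [Pi.sub_apply, Pi.smul_apply, smul_eq_mul]
      rw [hc, div_mul_cancel₀ _ hl, sub_self]
  exact sub_eq_zero.1 h1

lemma continuous_form (v : Ix n → ℂ) : Continuous fun x : Ix n → ℂ => form x v := by
  have : (fun x : Ix n → ℂ => form x v) = fun x =>
      (∑ i : Fin n, star (x (Sum.inl i)) * v (Sum.inl i)) -
      star (x (Sum.inr ())) * v (Sum.inr ()) := funext fun x => form_eq x v
  rw [this]
  fun_prop

lemma continuous_form_self : Continuous fun x : Ix n → ℂ => form x x := by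
  have : (fun x : Ix n → ℂ => form x x) = fun x =>
      (∑ i : Fin n, star (x (Sum.inl i)) * x (Sum.inl i)) -
      star (x (Sum.inr ())) * x (Sum.inr ()) := funext fun x => form_eq x x
  rw [this]
  fun_prop

lemma norm_form_le (x y : Ix n → ℂ) : ‖form x y‖ ≤ (n + 1) * ‖x‖ * ‖y‖ := by
  rw [form_eq]
  have h1 : ∀ j : Ix n, ‖star (x j) * y j‖ ≤ ‖x‖ * ‖y‖ := fun j => by
    rw [norm_mul, norm_star]
    exact mul_le_mul (norm_le_pi_norm x j) (norm_le_pi_norm y j) (norm_nonneg _) (norm_nonneg _)
  calc _ ≤ ‖∑ i : Fin n, star (x (Sum.inl i)) * y (Sum.inl i)‖ +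
        ‖star (x (Sum.inr ())) * y (Sum.inr ())‖ := norm_sub_le _ _
    _ ≤ (∑ i : Fin n, ‖x‖ * ‖y‖) + ‖x‖ * ‖y‖ :=
        add_le_add (norm_sum_le_of_le _ fun i _ => h1 _) (h1 _)
    _ = (n + 1) * ‖x‖ * ‖y‖ := by
        rw [Finset.sum_const, Finset.card_univ, Fintype.card_fin, nsmul_eq_mul]; ring

/-- Compactness: isotropic vectors cannot be almost orthogonal to two isotropic vectors which are not
proportional. -/
lemma exists_gap {v w : Ix n → ℂ} (hv : form v v = 0) (hw : form w w = 0) (hv0 : v ≠ 0)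
    (hw0 : w ≠ 0) (hvw : ∀ c : ℂ, v ≠ c • w) :
    ∃ δ > 0, ∀ x : Ix n → ℂ, form x x = 0 → δ * ‖x‖ ≤ ‖form x v‖ + ‖form x w‖ := by
  set S : Set (Ix n → ℂ) := {x | form x x = 0} ∩ Metric.sphere 0 1 with hS
  have hSc : IsCompact S :=
    (isCompact_sphere 0 1).inter_left (isClosed_eq continuous_form_self continuous_const)
  have hf : Continuous fun x : Ix n → ℂ => ‖form x v‖ + ‖form x w‖ :=
    (continuous_form v).norm.add (continuous_form w).norm
  have hpos : ∀ x ∈ S, 0 < ‖form x v‖ + ‖form x w‖ := by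
    rintro x ⟨hx, hx1⟩
    have hx1' : ‖x‖ = 1 := by simpa using hx1
    have hx0 : x ≠ 0 := by
      rintro rfl
      simp at hx1'
    rcases (add_nonneg (norm_nonneg (form x v)) (norm_nonneg (form x w))).eq_or_lt with h | h
    · exfalso
      have h1 : form x v = 0 := by
        rw [← norm_eq_zero]
        linarith [norm_nonneg (form x v), norm_nonneg (form x w)]
      have h2 : form x w = 0 := by
        rw [← norm_eq_zero]
        linarith [norm_nonneg (form x v), norm_nonneg (form x w)]
      obtain ⟨c, hc⟩ := prop_of_form_zero hx hv hv0 h1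
      obtain ⟨d, hd⟩ := prop_of_form_zero hx hw hw0 h2
      have hc0 : c ≠ 0 := by
        rintro rfl
        rw [zero_smul] at hc
        exact hx0 hc
      apply hvw (c⁻¹ * d)
      rw [mul_smul, ← hd, hc, smul_smul, inv_mul_cancel₀ hc0, one_smul]
    · exact h
  have key : ∃ δ > 0, ∀ x ∈ S, δ ≤ ‖form x v‖ + ‖form x w‖ := by
    rcases S.eq_empty_or_nonempty with h | h
    · exact ⟨1, one_pos, fun x hx => by rw [h] at hx; exact hx.elim⟩
    · obtain ⟨x₀, hx₀, hmin⟩ := hSc.exists_isMinOn h hf.continuousOn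
      exact ⟨_, hpos x₀ hx₀, fun x hx => hmin hx⟩
  obtain ⟨δ, hδ, h⟩ := key
  refine ⟨δ, hδ, fun x hx => ?_⟩
  by_cases hx0 : x = 0
  · rw [hx0, norm_zero, mul_zero]
    positivity
  · have hn : (0 : ℝ) < ‖x‖ := norm_pos_iff.2 hx0
    have h1 := h (((‖x‖ : ℝ) : ℂ)⁻¹ • x) ⟨by
      change form _ _ = 0
      rw [form_smul_left, form_smul_right, hx]; simp, by
      rw [mem_sphere_zero_iff_norm, norm_smul, norm_inv, Complex.norm_real, norm_norm,
        inv_mul_cancel₀ hn.ne']⟩
    rw [form_smul_left, form_smul_left, norm_mul, norm_mul, norm_star, norm_inv, Complex.norm_real,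
      norm_norm, ← mul_add] at h1
    rw [← div_eq_inv_mul, le_div_iff₀ hn] at h1
    exact h1

end Pool.Agent.K4H39.HU
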