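import Pool.Agent.K4H39.HU.Form

/-!
# Hyperbolic elements of `SU(n, 1)`
-/

set_option autoImplicit false

open Matrix

namespace Pool.Agent.K4H39.HU

variable {n : ℕ}

/-- The matrices preserving the form, by vectors. -/
lemma preserves_of_form {g : Matrix (Ix n) (Ix n) ℂ}
    (h : ∀ x y : Ix n → ℂ, form (g *ᵥ x) (g *ᵥ y) = form x y) : Preserves g := by
  rw [Preserves]
  have h1 : ∀ x y : Ix n → ℂ, star x ⬝ᵥ ((gᴴ * lorentz n * g) *ᵥ y) =
      star x ⬝ᵥ (lorentz n *ᵥ y) := by
    intro x y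
    have h2 := h x y
    rwa [form, form, star_mulVec, ← dotProduct_mulVec, mulVec_mulVec, mulVec_mulVec] at h2
  ext i j
  have h2 := h1 (Pi.single i 1) (Pi.single j 1)
  simpa [Pi.star_single, Matrix.mulVec_single_one, single_one_dotProduct] using h2

/-- For isotropic vectors `v`, `w` which are not orthogonal and `s > 0` there is an element of
`SU(n, 1)` with `g v = s v` and `g w = s⁻¹ w`. -/
lemma exists_hyp {v w : Ix n → ℂ} (hv : form v v = 0) (hw : form w w = 0) (hvw : form v w ≠ 0)
    (s : ℝ) (hs : s ≠ 0) : ∃ g : SU n,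
      ((g : SpecialLinearGroup (Ix n) ℂ) : Matrix (Ix n) (Ix n) ℂ) *ᵥ v = (s : ℂ) • v ∧
      ((g : SpecialLinearGroup (Ix n) ℂ) : Matrix (Ix n) (Ix n) ℂ) *ᵥ w = ((s⁻¹ : ℝ) : ℂ) • w := by
  have hwv : form w v ≠ 0 := by
    rw [← form_star]
    exact star_ne_zero.2 hvw
  have hsC : (s : ℂ) ≠ 0 := by exact_mod_cast hs
  -- the rank two update
  set α : ℂ := ((s : ℂ) - 1) / form w v with hα
  set β : ℂ := ((s : ℂ)⁻¹ - 1) / form v w with hβ
  set U : Matrix (Ix n) (Fin 2) ℂ := Matrix.of fun i k => ![v i, w i] k with hU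
  set V : Matrix (Fin 2) (Ix n) ℂ := Matrix.of fun k j =>
    ![α * (star w ᵥ* lorentz n) j, β * (star v ᵥ* lorentz n) j] k with hV
  have hU0 : ∀ i, U i 0 = v i := fun _ => rfl
  have hU1 : ∀ i, U i 1 = w i := fun _ => rfl
  have hV0 : ∀ j, V 0 j = α * (star w ᵥ* lorentz n) j := fun _ => rfl
  have hV1 : ∀ j, V 1 j = β * (star v ᵥ* lorentz n) j := fun _ => rfl
  clear_value U V
  have e0 : ∀ (a b : Ix n → ℂ), ∑ j, (star a ᵥ* lorentz n) j * b j = form a b := by
    intro a b
    rw [form, dotProduct_mulVec, dotProduct]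
  set g : Matrix (Ix n) (Ix n) ℂ := 1 + U * V with hg
  have hgx : ∀ x : Ix n → ℂ, g *ᵥ x = x + (α * form w x) • v + (β * form v x) • w := by
    intro x
    have e10 : (V *ᵥ x) 0 = α * form w x := by
      rw [Matrix.mulVec, dotProduct, ← e0, Finset.mul_sum]
      exact Finset.sum_congr rfl fun j _ => by rw [hV0, mul_assoc]
    have e11 : (V *ᵥ x) 1 = β * form v x := by
      rw [Matrix.mulVec, dotProduct, ← e0, Finset.mul_sum]
      exact Finset.sum_congr rfl fun j _ => by rw [hV1, mul_assoc]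
    have e2 : ∀ c : Fin 2 → ℂ, U *ᵥ c = c 0 • v + c 1 • w := by
      intro c
      funext i
      rw [Matrix.mulVec, dotProduct, Fin.sum_univ_two, hU0, hU1]
      simp only [Pi.add_apply, Pi.smul_apply, smul_eq_mul]
      ring
    rw [hg, Matrix.add_mulVec, Matrix.one_mulVec, ← Matrix.mulVec_mulVec, e2, e10, e11, add_assoc]
  have hdet : g.det = 1 := by
    rw [hg, Matrix.det_one_add_mul_comm, Matrix.det_fin_two]
    have f00 : (V * U) 0 0 = (s : ℂ) - 1 := by
      rw [Matrix.mul_apply]
      have : ∑ j, V 0 j * U j 0 = α * form w v := by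
        rw [← e0, Finset.mul_sum]
        exact Finset.sum_congr rfl fun j _ => by rw [hV0, hU0, mul_assoc]
      rw [this, hα, div_mul_cancel₀ _ hwv]
    have f01 : (V * U) 0 1 = 0 := by
      rw [Matrix.mul_apply]
      have : ∑ j, V 0 j * U j 1 = α * form w w := by
        rw [← e0, Finset.mul_sum]
        exact Finset.sum_congr rfl fun j _ => by rw [hV0, hU1, mul_assoc]
      rw [this, hw, mul_zero]
    have f11 : (V * U) 1 1 = (s : ℂ)⁻¹ - 1 := by
      rw [Matrix.mul_apply]
      have : ∑ j, V 1 j * U j 1 = β * form v w := by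
        rw [← e0, Finset.mul_sum]
        exact Finset.sum_congr rfl fun j _ => by rw [hV1, hU1, mul_assoc]
      rw [this, hβ, div_mul_cancel₀ _ hvw]
    rw [Matrix.add_apply, Matrix.add_apply, Matrix.add_apply, f00, f01, f11, Matrix.one_apply_eq,
      Matrix.one_apply_eq, Matrix.one_apply_ne (by decide : (0 : Fin 2) ≠ 1), zero_add, zero_mul,
      sub_zero, add_sub_cancel, add_sub_cancel, mul_inv_cancel₀ hsC]
  have hpres : Preserves g := by
    apply preserves_of_form
    intro x y
    rw [hgx, hgx]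
    simp only [form_add_left, form_add_right, form_smul_left, form_smul_right, hv, hw]
    have c1 : star α = ((s : ℂ) - 1) / form v w := by
      rw [hα, star_div₀, form_star, star_sub, star_one, Complex.star_def, Complex.conj_ofReal]
    have c2 : star β = ((s : ℂ)⁻¹ - 1) / form w v := by
      rw [hβ, star_div₀, form_star, star_sub, star_one, Complex.star_def, map_inv₀,
        Complex.conj_ofReal]
    rw [star_mul', star_mul', c1, c2, form_star, form_star]
    rw [hα, hβ]
    have e3 : form v w ≠ 0 := hvw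
    field_simp
    ring
  refine ⟨⟨⟨g, hdet⟩, hpres⟩, ?_, ?_⟩
  · change g *ᵥ v = _
    rw [hgx, hv, mul_zero, zero_smul, add_zero, hα, div_mul_cancel₀ _ hwv, ← one_smul ℂ v,
      smul_smul, ← add_smul, one_smul]
    congr 1
    ring
  · change g *ᵥ w = _
    rw [hgx, hw, mul_zero, zero_smul, add_zero, hβ, div_mul_cancel₀ _ hvw]
    have : w + ((s : ℂ)⁻¹ - 1) • w = ((1 : ℂ) + ((s : ℂ)⁻¹ - 1)) • w := by
      rw [add_smul, one_smul]
    rw [this]
    push_cast
    congr 1
    ring

end Pool.Agent.K4H39.HU
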