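import Mathlib

/-!
# Free subgroups of finite index in `SL(2, ℤ)`
-/

set_option autoImplicit false

open Matrix ModularGroup MulAction
open scoped Pointwise MatrixGroups UpperHalfPlane

namespace Pool.Agent.K4H39.HU

/-- The matrix `!![1, 2; 0, 1]`. -/
def sA : SL(2, ℤ) := ⟨!![1, 2; 0, 1], by simp [Matrix.det_fin_two_of]⟩

/-- The matrix `!![1, 0; 2, 1]`. -/
def sB : SL(2, ℤ) := ⟨!![1, 0; 2, 1], by simp [Matrix.det_fin_two_of]⟩

/-- The coset representatives. -/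
def reps : Set SL(2, ℤ) :=
  {1, T, S, T * S, S * T, T * S * T, -1, -T, -S, -(T * S), -(S * T), -(T * S * T)}

lemma reps_finite : reps.Finite := by
  rw [reps]
  exact Set.toFinite _

/-- The subgroup of `SL(2, ℤ)` generated by `sA` and `sB`. -/
def sanov : Subgroup SL(2, ℤ) := Subgroup.closure {sA, sB}

lemma sA_mem : sA ∈ sanov := Subgroup.subset_closure (by simp)

lemma sB_mem : sB ∈ sanov := Subgroup.subset_closure (by simp)

lemma mk_eq {a b : SL(2, ℤ)} (c : SL(2, ℤ)) (hc : c ∈ sanov) (h : b = a * c) :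
    (b : SL(2, ℤ) ⧸ sanov) = (a : SL(2, ℤ) ⧸ sanov) := by
  rw [QuotientGroup.eq, h]
  have : (a * c)⁻¹ * a = c⁻¹ := by group
  rw [this]
  exact inv_mem hc

lemma finite_quotient : Finite (SL(2, ℤ) ⧸ sanov) := by
  set X : Set (SL(2, ℤ) ⧸ sanov) := (fun g : SL(2, ℤ) => (g : SL(2, ℤ) ⧸ sanov)) '' reps with hX
  have hfin : X.Finite := reps_finite.image _
  have hS : S ∈ stabilizer SL(2, ℤ) X := by
    rw [mem_stabilizer_set_iff_smul_set_subset hfin]
    rintro _ ⟨_, ⟨r, hr, rfl⟩, rfl⟩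
    change ((S * r : SL(2, ℤ)) : SL(2, ℤ) ⧸ sanov) ∈ X
    simp only [reps, Set.mem_insert_iff, Set.mem_singleton_iff] at hr
    rcases hr with rfl | rfl | rfl | rfl | rfl | rfl | rfl | rfl | rfl | rfl | rfl | rfl
    · exact ⟨S, by simp [reps], (mk_eq 1 (one_mem _) (by decide)).symm⟩
    · exact ⟨S * T, by simp [reps], (mk_eq 1 (one_mem _) (by decide)).symm⟩
    · exact ⟨-1, by simp [reps], (mk_eq 1 (one_mem _) (by decide)).symm⟩
    · exact ⟨-(T * S * T), by simp [reps], (mk_eq sB⁻¹ (inv_mem sB_mem) (by decide)).symm⟩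
    · exact ⟨-T, by simp [reps], (mk_eq 1 (one_mem _) (by decide)).symm⟩
    · exact ⟨T * S, by simp [reps], (mk_eq sB sB_mem (by decide)).symm⟩
    · exact ⟨-S, by simp [reps], (mk_eq 1 (one_mem _) (by decide)).symm⟩
    · exact ⟨-(S * T), by simp [reps], (mk_eq 1 (one_mem _) (by decide)).symm⟩
    · exact ⟨1, by simp [reps], (mk_eq 1 (one_mem _) (by decide)).symm⟩
    · exact ⟨T * S * T, by simp [reps], (mk_eq sB⁻¹ (inv_mem sB_mem) (by decide)).symm⟩
    · exact ⟨T, by simp [reps], (mk_eq 1 (one_mem _) (by decide)).symm⟩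
    · exact ⟨-(T * S), by simp [reps], (mk_eq sB sB_mem (by decide)).symm⟩
  have hT : T ∈ stabilizer SL(2, ℤ) X := by
    rw [mem_stabilizer_set_iff_smul_set_subset hfin]
    rintro _ ⟨_, ⟨r, hr, rfl⟩, rfl⟩
    change ((T * r : SL(2, ℤ)) : SL(2, ℤ) ⧸ sanov) ∈ X
    simp only [reps, Set.mem_insert_iff, Set.mem_singleton_iff] at hr
    rcases hr with rfl | rfl | rfl | rfl | rfl | rfl | rfl | rfl | rfl | rfl | rfl | rfl
    · exact ⟨T, by simp [reps], (mk_eq 1 (one_mem _) (by decide)).symm⟩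
    · exact ⟨1, by simp [reps], (mk_eq sA sA_mem (by decide)).symm⟩
    · exact ⟨T * S, by simp [reps], (mk_eq 1 (one_mem _) (by decide)).symm⟩
    · exact ⟨S, by simp [reps], (mk_eq sB⁻¹ (inv_mem sB_mem) (by decide)).symm⟩
    · exact ⟨T * S * T, by simp [reps], (mk_eq 1 (one_mem _) (by decide)).symm⟩
    · exact ⟨-(S * T), by simp [reps],
        (mk_eq (sA⁻¹ * sB) (mul_mem (inv_mem sA_mem) sB_mem) (by decide)).symm⟩
    · exact ⟨-T, by simp [reps], (mk_eq 1 (one_mem _) (by decide)).symm⟩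
    · exact ⟨-1, by simp [reps], (mk_eq sA sA_mem (by decide)).symm⟩
    · exact ⟨-(T * S), by simp [reps], (mk_eq 1 (one_mem _) (by decide)).symm⟩
    · exact ⟨-S, by simp [reps], (mk_eq sB⁻¹ (inv_mem sB_mem) (by decide)).symm⟩
    · exact ⟨-(T * S * T), by simp [reps], (mk_eq 1 (one_mem _) (by decide)).symm⟩
    · exact ⟨S * T, by simp [reps],
        (mk_eq (sA⁻¹ * sB) (mul_mem (inv_mem sA_mem) sB_mem) (by decide)).symm⟩
  have htop : ∀ g : SL(2, ℤ), g ∈ stabilizer SL(2, ℤ) X := by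
    intro g
    have h1 : (Subgroup.closure {S, T} : Subgroup SL(2, ℤ)) ≤ stabilizer SL(2, ℤ) X := by
      rw [Subgroup.closure_le]
      rintro g (rfl | rfl)
      · exact hS
      · exact hT
    rw [SpecialLinearGroup.SL2Z_generators] at h1
    exact h1 (Subgroup.mem_top g)
  have huniv : (Set.univ : Set (SL(2, ℤ) ⧸ sanov)) ⊆ X := by
    intro x _
    obtain ⟨g, rfl⟩ := QuotientGroup.mk_surjective x
    have h2 := (mem_stabilizer_set.1 (htop g) ((1 : SL(2, ℤ)) : SL(2, ℤ) ⧸ sanov)).2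
      ⟨1, by simp [reps], rfl⟩
    have h3 : g • ((1 : SL(2, ℤ)) : SL(2, ℤ) ⧸ sanov) = ((g * 1 : SL(2, ℤ)) : SL(2, ℤ) ⧸ sanov) :=
      rfl
    rwa [h3, mul_one] at h2
  exact Set.finite_univ_iff.1 (hfin.subset huniv)


/-- The free generators of a subgroup of finite index. -/
def sGen (m : ℕ) : Option (Fin m) → SL(2, ℤ)
  | none => sA ^ m
  | some i => sA ^ (i : ℕ) * sB * (sA ^ (i : ℕ))⁻¹

/-- The subgroup generated by `sGen m`. -/
def sH (m : ℕ) : Subgroup SL(2, ℤ) := Subgroup.closure (Set.range (sGen m))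

lemma sGen_mem (m : ℕ) (i : Option (Fin m)) : sGen m i ∈ sH m :=
  Subgroup.subset_closure ⟨i, rfl⟩

lemma finite_quotient_sH (m : ℕ) (hm : 0 < m) : Finite (SL(2, ℤ) ⧸ sH m) := by
  have := finite_quotient
  set Y : Set (SL(2, ℤ) ⧸ sH m) :=
    Set.range fun j : Fin m => ((sA ^ (j : ℕ) : SL(2, ℤ)) : SL(2, ℤ) ⧸ sH m) with hY
  have hfin : Y.Finite := Set.finite_range _
  have hmk : ∀ a b c : SL(2, ℤ), c ∈ sH m → b = a * c →
      (b : SL(2, ℤ) ⧸ sH m) = (a : SL(2, ℤ) ⧸ sH m) := by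
    intro a b c hc h
    rw [QuotientGroup.eq, h]
    have : (a * c)⁻¹ * a = c⁻¹ := by group
    rw [this]
    exact inv_mem hc
  have hA : sA ∈ stabilizer SL(2, ℤ) Y := by
    rw [mem_stabilizer_set_iff_smul_set_subset hfin]
    rintro _ ⟨_, ⟨j, rfl⟩, rfl⟩
    change ((sA * sA ^ (j : ℕ) : SL(2, ℤ)) : SL(2, ℤ) ⧸ sH m) ∈ Y
    by_cases hj : (j : ℕ) + 1 < m
    · exact ⟨⟨j + 1, hj⟩, (hmk _ _ 1 (one_mem _) (by rw [mul_one, pow_succ'])).symm⟩
    · have hj' : (j : ℕ) + 1 = m := by have := j.2; omega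
      refine ⟨⟨0, hm⟩, (hmk _ _ (sGen m none) (sGen_mem m _) ?_).symm⟩
      rw [← pow_succ', hj']
      simp [sGen]
  have hB : sB ∈ stabilizer SL(2, ℤ) Y := by
    rw [mem_stabilizer_set_iff_smul_set_subset hfin]
    rintro _ ⟨_, ⟨j, rfl⟩, rfl⟩
    change ((sB * sA ^ (j : ℕ) : SL(2, ℤ)) : SL(2, ℤ) ⧸ sH m) ∈ Y
    rcases Nat.eq_zero_or_pos (j : ℕ) with hj | hj
    · refine ⟨j, (hmk _ _ (sGen m (some j)) (sGen_mem m _) ?_).symm⟩
      simp [sGen, hj]
    · have hj' : m - (j : ℕ) < m := by omega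
      refine ⟨j, (hmk _ _ ((sGen m none)⁻¹ * sGen m (some ⟨m - j, hj'⟩) * sGen m none)
        (mul_mem (mul_mem (inv_mem (sGen_mem m _)) (sGen_mem m _)) (sGen_mem m _)) ?_).symm⟩
      have h1 : sA ^ (m - (j : ℕ)) = sA ^ m * (sA ^ (j : ℕ))⁻¹ := pow_sub sA j.2.le
      simp only [sGen, h1]
      group
  have hle : sanov ≤ stabilizer SL(2, ℤ) Y := by
    rw [sanov, Subgroup.closure_le]
    rintro g (rfl | rfl)
    · exact hA
    · exact hB
  have key : (Set.univ : Set (SL(2, ℤ) ⧸ sH m)) ⊆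
      ⋃ q : SL(2, ℤ) ⧸ sanov, (fun y => q.out • y) '' Y := by
    intro x _
    obtain ⟨g, rfl⟩ := QuotientGroup.mk_surjective x
    rw [Set.mem_iUnion]
    refine ⟨(g : SL(2, ℤ) ⧸ sanov), ?_⟩
    have h1 : (Quotient.out (g : SL(2, ℤ) ⧸ sanov))⁻¹ * g ∈ sanov := by
      rw [← QuotientGroup.eq]
      exact Quotient.out_eq _
    have h2 := (mem_stabilizer_set.1 (hle h1) ((1 : SL(2, ℤ)) : SL(2, ℤ) ⧸ sH m)).2
      ⟨⟨0, hm⟩, by simp⟩
    refine ⟨_, h2, ?_⟩
    change Quotient.out (g : SL(2, ℤ) ⧸ sanov) • _ • ((1 : SL(2, ℤ)) : SL(2, ℤ) ⧸ sH m) = _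
    rw [smul_smul, mul_inv_cancel_left]
    change ((g * 1 : SL(2, ℤ)) : SL(2, ℤ) ⧸ sH m) = _
    rw [mul_one]
  exact Set.finite_univ_iff.1 ((Set.finite_iUnion fun q => hfin.image _).subset key)

open UpperHalfPlane in
lemma coe_sA_smul (z : ℍ) : ((sA • z : ℍ) : ℂ) = z + 2 := by
  rw [UpperHalfPlane.coe_specialLinearGroup_apply]
  simp [sA]

open UpperHalfPlane in
lemma coe_sB_smul (z : ℍ) : ((sB • z : ℍ) : ℂ) = z / (2 * z + 1) := by
  rw [UpperHalfPlane.coe_specialLinearGroup_apply]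
  simp [sB]

open UpperHalfPlane in
lemma coe_sA_pow_smul (k : ℕ) (z : ℍ) : ((sA ^ k • z : ℍ) : ℂ) = z + 2 * k := by
  induction k with
  | zero => simp
  | succ k ih =>
    rw [pow_succ', mul_smul, coe_sA_smul, ih]
    push_cast
    ring

open UpperHalfPlane in
lemma coe_sA_pow_inv_smul (k : ℕ) (z : ℍ) : (((sA ^ k)⁻¹ • z : ℍ) : ℂ) = z - 2 * k := by
  have h := coe_sA_pow_smul k ((sA ^ k)⁻¹ • z)
  rw [smul_inv_smul] at h
  rw [h]
  ring


/-- The attracting sets. -/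
def sX (m : ℕ) : Option (Fin m) → Set ℍ
  | none => {z | 2 * (m : ℝ) - 1 ≤ z.re}
  | some i => {z | Complex.normSq (2 * ((z : ℂ) - 2 * (i : ℕ)) - 1) < 1}

/-- The repelling sets. -/
def sY (m : ℕ) : Option (Fin m) → Set ℍ
  | none => {z | z.re < -1}
  | some i => {z | Complex.normSq (2 * ((z : ℂ) - 2 * (i : ℕ)) + 1) ≤ 1}

lemma sX_some {m : ℕ} {i : Fin m} {z : ℍ} (h : z ∈ sX m (some i)) :
    2 * ((i : ℕ) : ℝ) < z.re ∧ z.re < 2 * ((i : ℕ) : ℝ) + 1 := by
  have h1 : Complex.normSq (2 * ((z : ℂ) - 2 * (i : ℕ)) - 1) < 1 := h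
  rw [Complex.normSq_apply] at h1
  simp at h1
  constructor <;> nlinarith [mul_self_nonneg (z.im)]

lemma sY_some {m : ℕ} {i : Fin m} {z : ℍ} (h : z ∈ sY m (some i)) :
    2 * ((i : ℕ) : ℝ) - 1 ≤ z.re ∧ z.re ≤ 2 * ((i : ℕ) : ℝ) := by
  have h1 : Complex.normSq (2 * ((z : ℂ) - 2 * (i : ℕ)) + 1) ≤ 1 := h
  rw [Complex.normSq_apply] at h1
  simp at h1
  constructor <;> nlinarith [mul_self_nonneg (z.im)]

lemma normSq_div_sub {w : ℂ} (hw : 2 * w + 1 ≠ 0) :
    Complex.normSq (2 * (w / (2 * w + 1)) - 1) = (Complex.normSq (2 * w + 1))⁻¹ := by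
  have h : 2 * (w / (2 * w + 1)) - 1 = -(2 * w + 1)⁻¹ := by
    field_simp
    ring
  rw [h, Complex.normSq_neg, Complex.normSq_inv]

theorem injective_lift_sGen (m : ℕ) (hm : 0 < m) :
    Function.Injective (FreeGroup.lift (sGen m)) := by
  have : Nontrivial (Option (Fin m)) := ⟨none, some ⟨0, hm⟩, by simp⟩
  have hX : ∀ i, sGen m i • (sY m i)ᶜ ⊆ sX m i := by
    rintro (_ | i) _ ⟨z, hz, rfl⟩
    · have h1 : ¬ z.re < -1 := hz
      change 2 * (m : ℝ) - 1 ≤ ((sA ^ m • z : ℍ) : ℂ).re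
      rw [coe_sA_pow_smul]
      simp
      linarith
    · have h1 : ¬ Complex.normSq (2 * ((z : ℂ) - 2 * (i : ℕ)) + 1) ≤ 1 := hz
      change Complex.normSq
        (2 * ((((sA ^ (i : ℕ) * sB * (sA ^ (i : ℕ))⁻¹) • z : ℍ) : ℂ) - 2 * (i : ℕ)) - 1) < 1
      rw [mul_smul, mul_smul, coe_sA_pow_smul, coe_sB_smul, coe_sA_pow_inv_smul,
        add_sub_cancel_right]
      have h2 : 2 * ((z : ℂ) - 2 * (i : ℕ)) + 1 ≠ 0 := by
        intro h0
        rw [h0, Complex.normSq_zero] at h1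
        exact h1 zero_le_one
      rw [normSq_div_sub h2]
      exact inv_lt_one_of_one_lt₀ (not_le.1 h1)
  have hm1 : (1 : ℝ) ≤ m := by exact_mod_cast hm
  have hi : ∀ i : Fin m, ((i : ℕ) : ℝ) + 1 ≤ m := fun i => by exact_mod_cast i.2
  have hi0 : ∀ i : Fin m, (0 : ℝ) ≤ (i : ℕ) := fun i => Nat.cast_nonneg _
  have hlt : ∀ i j : Fin m, i ≠ j → ((i : ℕ) : ℝ) + 1 ≤ (j : ℕ) ∨ ((j : ℕ) : ℝ) + 1 ≤ (i : ℕ) := by
    intro i j hij
    rcases lt_or_gt_of_ne hij with h | h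
    · left; exact_mod_cast h
    · right; exact_mod_cast h
  refine FreeGroup.injective_lift_of_ping_pong (sGen m) (sX m) (sY m) ?_ ?_ ?_ ?_ hX ?_
  · rintro (_ | i)
    · refine ⟨⟨⟨2 * m, 1⟩, by norm_num⟩, ?_⟩
      change 2 * (m : ℝ) - 1 ≤ 2 * m
      linarith
    · refine ⟨⟨⟨2 * (i : ℕ) + 1 / 2, 1 / 4⟩, by norm_num⟩, ?_⟩
      change Complex.normSq (2 * ((⟨2 * (i : ℕ) + 1 / 2, 1 / 4⟩ : ℂ) - 2 * (i : ℕ)) - 1) < 1
      rw [Complex.normSq_apply]
      simp
      norm_num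
  · rintro (_ | i) (_ | j) hij
    · exact absurd rfl hij
    · rw [Function.onFun, Set.disjoint_left]
      intro z hz hz'
      have h1 : 2 * (m : ℝ) - 1 ≤ z.re := hz
      linarith [(sX_some hz').2, hi j]
    · rw [Function.onFun, Set.disjoint_left]
      intro z hz' hz
      have h1 : 2 * (m : ℝ) - 1 ≤ z.re := hz
      linarith [(sX_some hz').2, hi i]
    · rw [Function.onFun, Set.disjoint_left]
      intro z hz hz'
      have h1 := sX_some hz
      have h2 := sX_some hz'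
      rcases hlt i j (fun h => hij (congrArg some h)) with h | h
      · linarith
      · linarith
  · rintro (_ | i) (_ | j) hij
    · exact absurd rfl hij
    · rw [Function.onFun, Set.disjoint_left]
      intro z hz hz'
      have h1 : z.re < -1 := hz
      linarith [(sY_some hz').1, hi0 j]
    · rw [Function.onFun, Set.disjoint_left]
      intro z hz' hz
      have h1 : z.re < -1 := hz
      linarith [(sY_some hz').1, hi0 i]
    · rw [Function.onFun, Set.disjoint_left]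
      intro z hz hz'
      have h1 := sY_some hz
      have h2 := sY_some hz'
      rcases hlt i j (fun h => hij (congrArg some h)) with h | h
      · linarith
      · linarith
  · rintro (_ | i) (_ | j)
    · rw [Set.disjoint_left]
      intro z hz hz'
      have h1 : 2 * (m : ℝ) - 1 ≤ z.re := hz
      have h2 : z.re < -1 := hz'
      linarith
    · rw [Set.disjoint_left]
      intro z hz hz'
      have h1 : 2 * (m : ℝ) - 1 ≤ z.re := hz
      linarith [(sY_some hz').2, hi j]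
    · rw [Set.disjoint_left]
      intro z hz hz'
      have h1 : z.re < -1 := hz'
      linarith [(sX_some hz).1, hi0 i]
    · rw [Set.disjoint_left]
      intro z hz hz'
      have h1 := sX_some hz
      have h2 := sY_some hz'
      by_cases hij : i = j
      · subst hij
        linarith
      · rcases hlt i j hij with h | h
        · linarith
        · linarith
  · intro i
    rintro _ ⟨y, hy, rfl⟩
    by_contra hcon
    exact hy (hX i ⟨(sGen m i)⁻¹ • y, hcon, smul_inv_smul _ y⟩)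

/-- For `m ≥ 2` there is a subgroup of finite index of `SL(2, ℤ)` which is free of rank `m`. -/
theorem exists_free (m : ℕ) (hm : 2 ≤ m) : ∃ f : FreeGroup (Fin m) →* SL(2, ℤ),
    Function.Injective f ∧ f.range.FiniteIndex := by
  obtain ⟨k, rfl⟩ : ∃ k, m = k + 1 := ⟨m - 1, by omega⟩
  have hk : 0 < k := by omega
  have e : Fin (k + 1) ≃ Option (Fin k) := finSuccEquiv k
  refine ⟨(FreeGroup.lift (sGen k)).comp (FreeGroup.freeGroupCongr e).toMonoidHom, ?_, ?_⟩
  · exact (injective_lift_sGen k hk).comp (FreeGroup.freeGroupCongr e).injective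
  · have h1 : ((FreeGroup.lift (sGen k)).comp (FreeGroup.freeGroupCongr e).toMonoidHom).range =
        sH k := by
      have h2 : (FreeGroup.freeGroupCongr e).toMonoidHom.range = ⊤ :=
        MonoidHom.range_eq_top.2 (FreeGroup.freeGroupCongr e).surjective
      rw [MonoidHom.range_comp, h2, ← MonoidHom.range_eq_map, FreeGroup.range_lift_eq_closure, sH]
    rw [h1]
    have := finite_quotient_sH k hk
    exact Subgroup.finiteIndex_of_finite_quotient

end Pool.Agent.K4H39.HU
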