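import Pool.Agent.K4H39.HU.Two
import Pool.Agent.K4H39.HU.Sanov
import Pool.Agent.K4H39.HU.Cayley

/-!
# Lattices in `SU(n, 1)` are quotients of free products of arithmetic lattices of `SU(1, 1)`
-/

set_option autoImplicit false

open scoped MatrixGroups

namespace Pool.Agent.K4H39.HU

/-- The group `Γ` is the image of the free product of `G₁` and `G₂` under a homomorphism which is
injective on `G₁` and on `G₂`. -/
def IsHybrid (G₁ G₂ : Type*) {G : Type*} [Group G₁] [Group G₂] [Group G] (Γ : Subgroup G) : Prop :=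
  ∃ ρ : Monoid.Coprod G₁ G₂ →* G, Function.Injective (ρ.comp Monoid.Coprod.inl) ∧
    Function.Injective (ρ.comp Monoid.Coprod.inr) ∧ ρ.range = Γ

/-- The subgroup `H` is contained in `K` and has finite index in `K`. -/
def FiniteIndexIn {G : Type*} [Group G] (H K : Subgroup G) : Prop := H ≤ K ∧ H.relIndex K ≠ 0

lemma exists_generators {G : Type*} [Group G] {Γ : Subgroup G} (h : Γ.FG) :
    ∃ (m : ℕ) (g : Fin m → G), 2 ≤ m ∧ (∀ i, g i ∈ Γ) ∧ Γ ≤ Subgroup.closure (Set.range g) := by
  obtain ⟨S, hS⟩ := h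
  refine ⟨S.card + 2, fun i => if hi : (i : ℕ) < S.card then S.equivFin.symm ⟨i, hi⟩ else 1,
    by omega, ?_, ?_⟩
  · intro i
    dsimp only
    split_ifs with hi
    · rw [← hS]
      exact Subgroup.subset_closure (S.equivFin.symm ⟨i, hi⟩).2
    · exact one_mem _
  · rw [← hS, Subgroup.closure_le]
    intro s hs
    apply Subgroup.subset_closure
    have h1 : ((S.equivFin ⟨s, hs⟩ : Fin S.card) : ℕ) < S.card := (S.equivFin ⟨s, hs⟩).2
    refine ⟨⟨(S.equivFin ⟨s, hs⟩ : Fin S.card), by omega⟩, ?_⟩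
    dsimp only
    rw [dif_pos h1]
    simp

theorem exists_coprod (n : ℕ) (hn : 1 ≤ n) (Γ : Subgroup (SU n)) (hΓ : HasFiniteCovolume Γ)
    (hfg : Γ.FG) : ∃ Γ₁ Γ₂ : Subgroup (SU 1), FiniteIndexIn Γ₁ kappa.range ∧
      FiniteIndexIn Γ₂ kappa.range ∧ IsHybrid Γ₁ Γ₂ Γ := by
  have : NeZero n := ⟨by omega⟩
  obtain ⟨m, g, hm, hg, hgen⟩ := exists_generators hfg
  obtain ⟨x, hx, h1, h2⟩ := two_free hΓ hm g
  obtain ⟨f, hf, hfi⟩ := exists_free m hm
  have hinj : Function.Injective (kappa.comp f) := kappa_injective.comp hf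
  set e := MonoidHom.ofInjective hinj with he
  have hidx : FiniteIndexIn (kappa.comp f).range kappa.range := by
    constructor
    · rintro _ ⟨w, rfl⟩
      exact ⟨f w, rfl⟩
    · rw [MonoidHom.range_comp, MonoidHom.range_eq_map kappa,
        Subgroup.relIndex_map_map_of_injective _ _ kappa_injective, Subgroup.relIndex_top_right]
      exact hfi.index_ne_zero
  refine ⟨(kappa.comp f).range, (kappa.comp f).range, hidx, hidx,
    Monoid.Coprod.lift ((FreeGroup.lift x).comp e.symm.toMonoidHom)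
      ((FreeGroup.lift fun i => x i * g i).comp e.symm.toMonoidHom), ?_, ?_, ?_⟩
  · exact h1.comp e.symm.injective
  · exact h2.comp e.symm.injective
  · have hr : ∀ y : Fin m → SU n, ((FreeGroup.lift y).comp e.symm.toMonoidHom).range =
        Subgroup.closure (Set.range y) := by
      intro y
      rw [← FreeGroup.range_lift_eq_closure]
      ext z
      constructor
      · rintro ⟨w, rfl⟩
        exact ⟨e.symm w, rfl⟩
      · rintro ⟨w, rfl⟩
        refine ⟨e w, ?_⟩
        change FreeGroup.lift y (e.symm (e w)) = _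
        rw [MulEquiv.symm_apply_apply]
    rw [Monoid.Coprod.range_lift, hr, hr]
    apply le_antisymm
    · refine sup_le ?_ ?_
      · rw [Subgroup.closure_le]
        rintro _ ⟨i, rfl⟩
        exact hx i
      · rw [Subgroup.closure_le]
        rintro _ ⟨i, rfl⟩
        exact mul_mem (hx i) (hg i)
    · refine hgen.trans ?_
      rw [Subgroup.closure_le]
      rintro _ ⟨i, rfl⟩
      have h3 : x i ∈ Subgroup.closure (Set.range x) ⊔
          Subgroup.closure (Set.range fun i => x i * g i) :=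
        Subgroup.mem_sup_left (Subgroup.subset_closure ⟨i, rfl⟩)
      have h4 : x i * g i ∈ Subgroup.closure (Set.range x) ⊔
          Subgroup.closure (Set.range fun i => x i * g i) :=
        Subgroup.mem_sup_right (Subgroup.subset_closure ⟨i, rfl⟩)
      have h5 := mul_mem (inv_mem h3) h4
      rwa [inv_mul_cancel_left] at h5

/-- The group `SU(n, 1)`. -/
def SpecialUnitary (n : ℕ) : Type := SU n

instance (n : ℕ) : Group (SpecialUnitary n) := inferInstanceAs (Group (SU n))

/-- The topology of `SU(n, 1)`, as a space of matrices. -/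
instance (n : ℕ) : TopologicalSpace (SpecialUnitary n) := inferInstanceAs (TopologicalSpace (SU n))

/-- The matrix of an element of `SU(n, 1)`. -/
def SpecialUnitary.mat {n : ℕ} (x : SpecialUnitary n) : Matrix (Ix n) (Ix n) ℂ :=
  x.1.1

lemma mem_range_kappa (x : SpecialUnitary 1) : x ∈ kappa.range ↔
    ∃ g : Matrix (Fin 2) (Fin 2) ℤ, g.det = 1 ∧ x.mat = cayleyConj g := by
  constructor
  · rintro ⟨g, rfl⟩
    exact ⟨g.1, g.2, rfl⟩
  · rintro ⟨g, hg, hx⟩
    exact ⟨⟨g, hg⟩, Subtype.ext (Subtype.ext hx.symm)⟩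

/-- The elements `C g C⁻¹` with `g` in `SL(2, ℤ)` of `SU(1, 1)`. -/
def modularSet : Set (SpecialUnitary 1) :=
  {x | ∃ g : Matrix (Fin 2) (Fin 2) ℤ, g.det = 1 ∧ x.mat = cayleyConj g}

lemma modularSet_eq : modularSet = (kappa.range : Set (SU 1)) := by
  ext x
  exact (mem_range_kappa x).symm

lemma modularSet_one : (1 : SpecialUnitary 1) ∈ modularSet := by
  rw [modularSet_eq]
  exact one_mem (kappa.range)

lemma modularSet_mul {x y : SpecialUnitary 1} (hx : x ∈ modularSet) (hy : y ∈ modularSet) :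
    x * y ∈ modularSet := by
  rw [modularSet_eq] at *
  exact mul_mem (S := Subgroup (SU 1)) (s := kappa.range) hx hy

lemma modularSet_inv {x : SpecialUnitary 1} (hx : x ∈ modularSet) : x⁻¹ ∈ modularSet := by
  rw [modularSet_eq] at *
  exact inv_mem (S := Subgroup (SU 1)) (s := kappa.range) hx

/-- The subgroup `C SL(2, ℤ) C⁻¹` of `SU(1, 1)`. -/
def modular : Subgroup (SpecialUnitary 1) where
  carrier := modularSet
  one_mem' := modularSet_one
  mul_mem' := modularSet_mul
  inv_mem' := modularSet_inv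

theorem exists_modular (n : ℕ) (hn : 1 ≤ n) (Γ : Subgroup (SpecialUnitary n))
    (hΓ : HasFiniteCovolume Γ) (hfg : Γ.FG) : ∃ Γ₁ Γ₂ : Subgroup (SpecialUnitary 1),
      FiniteIndexIn Γ₁ modular ∧ FiniteIndexIn Γ₂ modular ∧ IsHybrid Γ₁ Γ₂ Γ := by
  have h : (modular : Subgroup (SU 1)) = kappa.range := SetLike.coe_injective modularSet_eq
  obtain ⟨Γ₁, Γ₂, h1, h2, h3⟩ := exists_coprod n hn Γ hΓ hfg
  rw [← h] at h1 h2
  exact ⟨Γ₁, Γ₂, h1, h2, h3⟩

end Pool.Agent.K4H39.HU
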