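import Pool.Agent.K4H39.HU.Elt

/-!
# Two free subgroups which generate a lattice
-/

set_option autoImplicit false

open Matrix Topology Filter
open scoped Pointwise

namespace Pool.Agent.K4H39.HU

variable {n : ℕ}

/-! ### Isotropic vectors -/

/-- The nonzero isotropic vectors. -/
def Iso (n : ℕ) : Type := {x : Ix n → ℂ // x ≠ 0 ∧ form x x = 0}

noncomputable instance : MulAction (SU n) (Iso n) where
  smul g x := ⟨mat g *ᵥ x.1, fun h => x.2.1 (by
      have : mat g⁻¹ *ᵥ (mat g *ᵥ x.1) = x.1 := by
        rw [mulVec_mulVec, mat_inv_mul, one_mulVec]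
      rw [← this, h, mulVec_zero]), by rw [form_mat]; exact x.2.2⟩
  one_smul x := Subtype.ext (by
    change mat 1 *ᵥ x.1 = x.1
    rw [mat_one, one_mulVec])
  mul_smul g h x := Subtype.ext (by
    change mat (g * h) *ᵥ x.1 = mat g *ᵥ (mat h *ᵥ x.1)
    rw [mat_mul, mulVec_mulVec])

lemma smul_val (g : SU n) (x : Iso n) : (g • x).1 = mat g *ᵥ x.1 := rfl

lemma last_ne {v : Ix n → ℂ} (hv : form v v = 0) (hv0 : v ≠ 0) : v (Sum.inr ()) ≠ 0 :=
  fun h => hv0 (eq_zero_of_last hv h)

/-- The vector on the line of `v` with last coordinate one. -/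
noncomputable def deh (v : Ix n → ℂ) : Ix n → ℂ := (v (Sum.inr ()))⁻¹ • v

lemma ne_smul_of_deh {v w : Ix n → ℂ} (hv : v (Sum.inr ()) ≠ 0) (h : deh v ≠ deh w) (c : ℂ) :
    v ≠ c • w := by
  rintro rfl
  apply h
  have hc : c ≠ 0 := by
    rintro rfl
    simp at hv
  rw [deh, deh, Pi.smul_apply, smul_eq_mul, smul_smul, mul_inv, mul_assoc, mul_comm _ c,
    ← mul_assoc, inv_mul_cancel₀ hc, one_mul]

lemma smul_of_deh {v w : Ix n → ℂ} (hv : v (Sum.inr ()) ≠ 0) (h : deh v = deh w) :
    ∃ c : ℂ, v = c • w := by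
  refine ⟨v (Sum.inr ()) * (w (Sum.inr ()))⁻¹, ?_⟩
  have h1 : v = v (Sum.inr ()) • deh v := by
    rw [deh, smul_smul, mul_inv_cancel₀ hv, one_smul]
  conv_lhs => rw [h1, h, deh, smul_smul]

/-- The isotropic vectors `(z, 0, …, 0, 1)`. -/
noncomputable def vec (n : ℕ) [NeZero n] (z : Circle) : Ix n → ℂ :=
  Sum.elim (Pi.single 0 (z : ℂ)) (fun _ => 1)

lemma form_vec [NeZero n] (z : Circle) : form (vec n z) (vec n z) = 0 := by
  rw [form_eq, vec]
  simp only [Sum.elim_inl, Sum.elim_inr]
  rw [Finset.sum_eq_single (0 : Fin n)]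
  · rw [Pi.single_eq_same, star_one, mul_one, Complex.star_def, Complex.conj_mul',
      Circle.norm_coe]
    norm_num
  · intro j _ hj
    rw [Pi.single_eq_of_ne hj, mul_zero]
  · intro h
    exact absurd (Finset.mem_univ _) h

lemma vec_last [NeZero n] (z : Circle) : vec n z (Sum.inr ()) = 1 := rfl

lemma vec_ne [NeZero n] (z : Circle) : vec n z ≠ 0 := fun h => by
  have := congrFun h (Sum.inr ())
  rw [vec_last] at this
  exact one_ne_zero this

lemma vec_inj [NeZero n] {z z' : Circle} {c : ℂ} (h : vec n z = c • vec n z') : z = z' := by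
  have h1 := congrFun h (Sum.inr ())
  rw [Pi.smul_apply, vec_last, vec_last, smul_eq_mul, mul_one] at h1
  have h2 := congrFun h (Sum.inl 0)
  rw [← h1, one_smul, vec, vec, Sum.elim_inl, Sum.elim_inl, Pi.single_eq_same,
    Pi.single_eq_same] at h2
  exact Circle.ext h2

/-! ### Choosing points in general position -/

lemma exists_general {L M : Type*} [Infinite L] : ∀ (m : ℕ) (τ : Fin m → L → M),
    (∀ i, Function.Injective (τ i)) → ∃ f : Fin m → L, Function.Injective f ∧
      Function.Injective fun i => τ i (f i) := by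
  intro m
  induction m with
  | zero => exact fun _ _ => ⟨Fin.elim0, fun i => i.elim0, fun i => i.elim0⟩
  | succ m ih =>
    intro τ hτ
    obtain ⟨f, hf, hf'⟩ := ih (fun i => τ i.castSucc) fun i => hτ _
    have hfin : (Set.range f ∪ (τ (Fin.last m)) ⁻¹' (Set.range fun i : Fin m =>
        τ i.castSucc (f i))).Finite :=
      (Set.finite_range f).union ((Set.finite_range _).preimage (hτ _).injOn)
    obtain ⟨z, hz⟩ := hfin.exists_notMem
    rw [Set.mem_union, not_or] at hz
    refine ⟨Fin.snoc f z, ?_, ?_⟩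
    · intro i j hij
      induction i using Fin.lastCases with
      | last =>
        induction j using Fin.lastCases with
        | last => rfl
        | cast j =>
          simp only [Fin.snoc_last, Fin.snoc_castSucc] at hij
          exact absurd ⟨j, hij.symm⟩ hz.1
      | cast i =>
        induction j using Fin.lastCases with
        | last =>
          simp only [Fin.snoc_last, Fin.snoc_castSucc] at hij
          exact absurd ⟨i, hij⟩ hz.1
        | cast j =>
          simp only [Fin.snoc_castSucc] at hij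
          rw [hf hij]
    · intro i j hij
      induction i using Fin.lastCases with
      | last =>
        induction j using Fin.lastCases with
        | last => rfl
        | cast j =>
          simp only [Fin.snoc_last, Fin.snoc_castSucc] at hij
          exact absurd ⟨j, hij.symm⟩ hz.2
      | cast i =>
        induction j using Fin.lastCases with
        | last =>
          simp only [Fin.snoc_last, Fin.snoc_castSucc] at hij
          exact absurd ⟨i, hij⟩ hz.2
        | cast j =>
          simp only [Fin.snoc_castSucc] at hij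
          rw [hf' hij]

lemma exists_avoid {L : Type*} [Infinite L] (m : ℕ) {B : Set L} (hB : B.Finite) :
    ∃ f : Fin m → L, Function.Injective f ∧ ∀ i, f i ∉ B := by
  have h1 : Bᶜ.Infinite := hB.infinite_compl
  let e := h1.natEmbedding
  refine ⟨fun i => (e i : L), fun i j hij => ?_, fun i => (e i).2⟩
  exact Fin.ext (e.injective (Subtype.ext hij))

/-! ### Separation -/

/-- No isotropic vector is almost orthogonal to both `v` and `w`. -/
def Sep (K ε : ℝ) (v w : Ix n → ℂ) : Prop :=
  ∀ x : Ix n → ℂ, x ≠ 0 → form x x = 0 → ‖form x v‖ < K * ε * ‖x‖ → ‖form x w‖ < K * ε * ‖x‖ →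
    False

lemma eventually_sep {K : ℝ} (hK : 0 < K) {v w : Ix n → ℂ} (hv : form v v = 0)
    (hw : form w w = 0) (hv0 : v ≠ 0) (hw0 : w ≠ 0) (h : deh v ≠ deh w) :
    ∀ᶠ ε in 𝓝[>] (0 : ℝ), Sep K ε v w := by
  obtain ⟨δ, hδ, h1⟩ := exists_gap hv hw hv0 hw0 (ne_smul_of_deh (last_ne hv hv0) h)
  have h2 : Set.Ioo (0 : ℝ) (δ / (2 * K)) ∈ 𝓝[>] (0 : ℝ) :=
    Ioo_mem_nhdsGT (by positivity)
  filter_upwards [h2] with ε hε x hx0 hx hxv hxw
  have hn : 0 < ‖x‖ := norm_pos_iff.2 hx0
  have h3 := h1 x hx
  have h4 : ε * (2 * K) < δ := (lt_div_iff₀ (by positivity)).1 hε.2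
  nlinarith

end Pool.Agent.K4H39.HU
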