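import Pool.Agent.K4H39.HU.Pong

/-!
# Two free subgroups which generate a lattice
-/

set_option autoImplicit false

open Matrix Topology Filter
open scoped Pointwise

namespace Pool.Agent.K4H39.HU

variable {n : ℕ}

lemma inv_smul_sub {G α : Type*} [Group G] [MulAction G α] {a : G} {X Y : Set α}
    (h : a • Yᶜ ⊆ X) : a⁻¹ • Xᶜ ⊆ Y := by
  rintro _ ⟨y, hy, rfl⟩
  by_contra hcon
  apply hy
  apply h
  exact ⟨a⁻¹ • y, hcon, smul_inv_smul a y⟩

/-- The ping-pong sets. -/
def near (ε : ℝ) (v : Ix n → ℂ) : Set (Iso n) := {x | ‖form x.1 v‖ < ε * ‖x.1‖}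

lemma disjoint_near {K ε : ℝ} {v w : Ix n → ℂ} (h : Sep K ε v w) :
    Disjoint (near (K * ε) v) (near (K * ε) w) := by
  rw [Set.disjoint_left]
  intro x hx hx'
  exact h x.1 x.2.1 x.2.2 hx hx'

lemma near_mono {ε ε' : ℝ} (h : ε ≤ ε') (v : Ix n → ℂ) : near ε v ⊆ near ε' v := by
  intro x hx
  exact lt_of_lt_of_le (show ‖form x.1 v‖ < ε * ‖x.1‖ from hx)
    (mul_le_mul_of_nonneg_right h (norm_nonneg _))

theorem two_free [NeZero n] {Γ : Subgroup (SU n)} (hΓ : HasFiniteCovolume Γ) {m : ℕ}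
    (hm : 2 ≤ m) (g : Fin m → SU n) :
    ∃ x : Fin m → SU n, (∀ i, x i ∈ Γ) ∧ Function.Injective (FreeGroup.lift x) ∧
      Function.Injective (FreeGroup.lift fun i => x i * g i) := by
  have : Nontrivial (Fin m) := Fin.nontrivial_iff_two_le.2 hm
  have hinf : Infinite Circle := by
    have h1 : Function.Injective fun k : ℕ => Circle.exp (1 / (k + 1 : ℝ)) := by
      intro k l hkl
      have h0 : ∀ j : ℕ, (Circle.exp (1 / (j + 1 : ℝ)) : ℂ).arg = 1 / (j + 1 : ℝ) := by
        intro j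
        have hj : (0 : ℝ) < 1 / (j + 1 : ℝ) := by positivity
        have hj1 : 1 / (j + 1 : ℝ) ≤ 1 := by
          rw [div_le_one (by positivity)]
          have : (0 : ℝ) ≤ j := Nat.cast_nonneg j
          linarith
        exact Circle.arg_exp (by linarith [Real.pi_pos]) (by linarith [Real.pi_gt_three])
      have h2 : (1 / (k + 1 : ℝ)) = 1 / (l + 1 : ℝ) := by
        rw [← h0 k, ← h0 l]
        exact congrArg (fun z : Circle => (z : ℂ).arg) hkl
      have h3 : (k + 1 : ℝ) = l + 1 := by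
        field_simp at h2
        linarith
      exact_mod_cast (add_right_cancel h3)
    exact Infinite.of_injective _ h1
  -- the repelling points
  set τ : Fin m → Circle → (Ix n → ℂ) := fun i z => deh (mat (g i)⁻¹ *ᵥ vec n z) with hτ
  have hiso : ∀ (h : SU n) (z : Circle), form (mat h *ᵥ vec n z) (mat h *ᵥ vec n z) = 0 ∧
      mat h *ᵥ vec n z ≠ 0 := by
    intro h z
    refine ⟨by rw [form_mat, form_vec], fun h0 => vec_ne (n := n) z ?_⟩
    have : mat h⁻¹ *ᵥ (mat h *ᵥ vec n z) = vec n z := by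
      rw [mulVec_mulVec, mat_inv_mul, one_mulVec]
    rw [← this, h0, mulVec_zero]
  have hτi : ∀ i, Function.Injective (τ i) := by
    intro i z z' hz
    obtain ⟨c, hc⟩ := smul_of_deh (last_ne (hiso _ z).1 (hiso _ z).2) hz
    have h1 : mat (g i) *ᵥ (mat (g i)⁻¹ *ᵥ vec n z) =
        mat (g i) *ᵥ (c • (mat (g i)⁻¹ *ᵥ vec n z')) := by rw [hc]
    rw [mulVec_smul, mulVec_mulVec, mulVec_mulVec, mat_mul_inv, one_mulVec, one_mulVec] at h1
    exact vec_inj h1
  obtain ⟨f, hf, hf'⟩ := exists_general m τ hτi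
  -- the attracting points
  have hvi : Function.Injective fun z : Circle => deh (vec n z) := by
    intro z z' hz
    obtain ⟨c, hc⟩ := smul_of_deh (by rw [vec_last]; exact one_ne_zero) hz
    exact vec_inj hc
  have hB : (Set.range f ∪ (fun z : Circle => deh (vec n z)) ⁻¹'
      (Set.range fun i => τ i (f i))).Finite :=
    (Set.finite_range f).union ((Set.finite_range _).preimage hvi.injOn)
  obtain ⟨f₁, hf₁, hfB⟩ := exists_avoid m hB
  -- the constant
  set K : ℝ := 1 + ∑ i, eta (mat (g i)) with hK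
  have hKe : ∀ i, 1 + eta (mat (g i)) ≤ K := fun i => by
    rw [hK]
    have := Finset.single_le_sum (f := fun i => eta (mat (g i))) (fun i _ => eta_nonneg _)
      (Finset.mem_univ i)
    linarith
  have hK1 : 1 ≤ K := by
    rw [hK]
    have : 0 ≤ ∑ i, eta (mat (g i)) := Finset.sum_nonneg fun i _ => eta_nonneg _
    linarith
  have hK0 : 0 < K := by linarith
  set P : Fin m → (Ix n → ℂ) := fun i => vec n (f₁ i) with hP
  set Q : Fin m → (Ix n → ℂ) := fun i => vec n (f i) with hQ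
  set W : Fin m → (Ix n → ℂ) := fun i => mat (g i)⁻¹ *ᵥ vec n (f i) with hW
  have hPQ : ∀ i j, deh (P i) ≠ deh (Q j) := by
    intro i j h
    exact hfB i (Or.inl ⟨j, (hvi h).symm⟩)
  have hPW : ∀ i j, deh (P i) ≠ deh (W j) := by
    intro i j h
    exact hfB i (Or.inr ⟨j, h.symm⟩)
  have key : ∃ ε > 0, (∀ i j, i ≠ j → Sep K ε (P i) (P j)) ∧
      (∀ i j, i ≠ j → Sep K ε (Q i) (Q j)) ∧ (∀ i j, i ≠ j → Sep K ε (W i) (W j)) ∧
      (∀ i j, Sep K ε (P i) (Q j)) ∧ ∀ i j, Sep K ε (P i) (W j) := by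
    have e1 : ∀ᶠ ε in 𝓝[>] (0 : ℝ), ∀ i j, i ≠ j → Sep K ε (P i) (P j) := by
      rw [eventually_all]; intro i
      rw [eventually_all]; intro j
      rw [eventually_all]; intro hij
      exact eventually_sep hK0 (form_vec _) (form_vec _) (vec_ne _) (vec_ne _)
        fun h => hij (hf₁ (hvi h))
    have e2 : ∀ᶠ ε in 𝓝[>] (0 : ℝ), ∀ i j, i ≠ j → Sep K ε (Q i) (Q j) := by
      rw [eventually_all]; intro i
      rw [eventually_all]; intro j
      rw [eventually_all]; intro hij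
      exact eventually_sep hK0 (form_vec _) (form_vec _) (vec_ne _) (vec_ne _)
        fun h => hij (hf (hvi h))
    have e3 : ∀ᶠ ε in 𝓝[>] (0 : ℝ), ∀ i j, i ≠ j → Sep K ε (W i) (W j) := by
      rw [eventually_all]; intro i
      rw [eventually_all]; intro j
      rw [eventually_all]; intro hij
      exact eventually_sep hK0 (hiso _ _).1 (hiso _ _).1 (hiso _ _).2 (hiso _ _).2
        fun h => hij (hf' h)
    have e4 : ∀ᶠ ε in 𝓝[>] (0 : ℝ), ∀ i j, Sep K ε (P i) (Q j) := by
      rw [eventually_all]; intro i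
      rw [eventually_all]; intro j
      exact eventually_sep hK0 (form_vec _) (form_vec _) (vec_ne _) (vec_ne _) (hPQ i j)
    have e5 : ∀ᶠ ε in 𝓝[>] (0 : ℝ), ∀ i j, Sep K ε (P i) (W j) := by
      rw [eventually_all]; intro i
      rw [eventually_all]; intro j
      exact eventually_sep hK0 (form_vec _) (hiso _ _).1 (vec_ne _) (hiso _ _).2 (hPW i j)
    obtain ⟨ε, h, hε⟩ := ((e1.and (e2.and (e3.and (e4.and e5)))).and
      self_mem_nhdsWithin).exists
    exact ⟨ε, hε, h⟩
  obtain ⟨ε, hε, s1, s2, s3, s4, s5⟩ := key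
  have hεK : ε ≤ K * ε := by nlinarith
  -- the elements
  have hx : ∀ i, ∃ γ ∈ Γ, ∀ x : Ix n → ℂ, x ≠ 0 → ε * ‖x‖ ≤ ‖form x (Q i)‖ →
      ‖form (mat γ *ᵥ x) (P i)‖ < ε * ‖mat γ *ᵥ x‖ := by
    intro i
    refine exists_elt hΓ (form_vec _) (form_vec _) ?_ hε
    intro h0
    obtain ⟨c, hc⟩ := prop_of_form_zero (form_vec _) (form_vec _) (vec_ne _) h0
    exact ne_smul_of_deh (show P i (Sum.inr ()) ≠ 0 from one_ne_zero) (hPQ i i) c hc
  choose x hxΓ hxd using hx
  refine ⟨x, hxΓ, ?_, ?_⟩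
  · have hX : ∀ i, x i • (near ε (Q i))ᶜ ⊆ near ε (P i) := by
      rintro i _ ⟨y, hy, rfl⟩
      exact hxd i y.1 y.2.1 (not_lt.1 hy)
    exact FreeGroup.injective_lift_of_ping_pong x (fun i => near ε (P i)) (fun i => near ε (Q i))
      (fun i => ⟨⟨P i, vec_ne _, form_vec _⟩, by
        change ‖form (P i) (P i)‖ < ε * ‖P i‖
        rw [form_vec, norm_zero]
        exact mul_pos hε (norm_pos_iff.2 (vec_ne _))⟩)
      (fun i j hij => (disjoint_near (s1 i j hij)).mono (near_mono hεK _) (near_mono hεK _))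
      (fun i j hij => (disjoint_near (s2 i j hij)).mono (near_mono hεK _) (near_mono hεK _))
      (fun i j => (disjoint_near (s4 i j)).mono (near_mono hεK _) (near_mono hεK _))
      hX (fun i => inv_smul_sub (hX i))
  · have hsub : ∀ i, {y : Iso n | g i • y ∈ near ε (Q i)} ⊆ near (K * ε) (W i) := by
      intro i y hy
      have h1 : ‖form (mat (g i) *ᵥ y.1) (Q i)‖ < ε * ‖mat (g i) *ᵥ y.1‖ := hy
      rw [form_mat_left] at h1
      have h2 : ‖mat (g i) *ᵥ y.1‖ ≤ K * ‖y.1‖ := by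
        have h3 := norm_mulVec_sub_le (mat (g i)) y.1
        have h4 : ‖mat (g i) *ᵥ y.1‖ ≤ ‖mat (g i) *ᵥ y.1 - y.1‖ + ‖y.1‖ := by
          have := norm_add_le (mat (g i) *ᵥ y.1 - y.1) y.1
          rwa [sub_add_cancel] at this
        have h5 := mul_le_mul_of_nonneg_right (hKe i) (norm_nonneg y.1)
        linarith
      change ‖form y.1 (W i)‖ < K * ε * ‖y.1‖
      calc _ < ε * ‖mat (g i) *ᵥ y.1‖ := h1
        _ ≤ ε * (K * ‖y.1‖) := mul_le_mul_of_nonneg_left h2 hε.le
        _ = K * ε * ‖y.1‖ := by ring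
    have hX : ∀ i, (x i * g i) • {y : Iso n | g i • y ∈ near ε (Q i)}ᶜ ⊆ near ε (P i) := by
      rintro i _ ⟨y, hy, rfl⟩
      have h1 : ε * ‖(g i • y).1‖ ≤ ‖form (g i • y).1 (Q i)‖ := not_lt.1 hy
      have h2 := hxd i (g i • y).1 (g i • y).2.1 h1
      change (x i * g i) • y ∈ near ε (P i)
      rw [mul_smul]
      exact h2
    exact FreeGroup.injective_lift_of_ping_pong (fun i => x i * g i) (fun i => near ε (P i))
      (fun i => {y : Iso n | g i • y ∈ near ε (Q i)})
      (fun i => ⟨⟨P i, vec_ne _, form_vec _⟩, by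
        change ‖form (P i) (P i)‖ < ε * ‖P i‖
        rw [form_vec, norm_zero]
        exact mul_pos hε (norm_pos_iff.2 (vec_ne _))⟩)
      (fun i j hij => (disjoint_near (s1 i j hij)).mono (near_mono hεK _) (near_mono hεK _))
      (fun i j hij => (disjoint_near (s3 i j hij)).mono (hsub i) (hsub j))
      (fun i j => (disjoint_near (s5 i j)).mono (near_mono hεK _) (hsub j))
      hX (fun i => inv_smul_sub (hX i))

end Pool.Agent.K4H39.HU
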